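import Mathlib

/-!
No norm on a space containing `ℓ^∞` that is equivalent to the given one is locally uniformly
convex.  The proof builds a decreasing sequence of infinite sets and a sequence of points of the
unit ball of `ℓ^∞` vanishing on them, nearly maximising the norm.
-/

set_option autoImplicit false

namespace Pool.Agent.H787R2.NoLUR

open Filter Topology Set
open scoped ENNReal

noncomputable section

variable (𝕜 : Type) [RCLike 𝕜]

/-- `ℓ^∞`. -/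
abbrev Linf := lp (fun _ : ℕ => 𝕜) ∞

variable {𝕜}

lemma norm_le_iff {x : Linf 𝕜} {C : ℝ} (hC : 0 ≤ C) : ‖x‖ ≤ C ↔ ∀ i, ‖x i‖ ≤ C := by
  constructor
  · intro h i
    exact (lp.norm_apply_le_norm (by simp) x i).trans h
  · intro h
    exact lp.norm_le_of_forall_le hC h

/-- a point of the unit ball with an infinite set on which it vanishes -/
structure St (𝕜 : Type) [RCLike 𝕜] where
  x : Linf 𝕜
  N : Set ℕ
  le : ‖x‖ ≤ 1
  inf : N.Infinite
  zero : ∀ i ∈ N, x i = 0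

/-- points of the ball agreeing with `s.x` off `s.N` and vanishing on an infinite part of it -/
def E (s : St 𝕜) : Set (Linf 𝕜) :=
  {y | ‖y‖ ≤ 1 ∧ (∀ i, i ∉ s.N → y i = s.x i) ∧ {i | i ∈ s.N ∧ y i = 0}.Infinite}

lemma self_mem (s : St 𝕜) : s.x ∈ E s := by
  refine ⟨s.le, fun i _ => rfl, ?_⟩
  have : {i | i ∈ s.N ∧ s.x i = 0} = s.N := by
    ext i
    exact ⟨fun h => h.1, fun h => ⟨h, s.zero i h⟩⟩
  rw [this]
  exact s.inf

lemma refl_mem (s : St 𝕜) {y : Linf 𝕜} (hy : y ∈ E s) : (2 : 𝕜) • s.x - y ∈ E s := by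
  obtain ⟨h1, h2, h3⟩ := hy
  have key : ∀ i, ((2 : 𝕜) • s.x - y) i = (2 : 𝕜) * s.x i - y i := by
    intro i
    rw [lp.coeFn_sub, Pi.sub_apply, lp.coeFn_smul, Pi.smul_apply, smul_eq_mul]
  have hoff : ∀ i, i ∉ s.N → ((2 : 𝕜) • s.x - y) i = s.x i := by
    intro i hi
    rw [key, h2 i hi]
    ring
  have hon : ∀ i, i ∈ s.N → ((2 : 𝕜) • s.x - y) i = - y i := by
    intro i hi
    rw [key, s.zero i hi]
    ring
  refine ⟨?_, hoff, ?_⟩
  · rw [norm_le_iff zero_le_one]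
    intro i
    by_cases hi : i ∈ s.N
    · rw [hon i hi, norm_neg]
      exact (norm_le_iff zero_le_one).1 h1 i
    · rw [hoff i hi]
      exact (norm_le_iff zero_le_one).1 s.le i
  · refine h3.mono ?_
    rintro i ⟨hi, hi0⟩
    exact ⟨hi, by rw [hon i hi, hi0, neg_zero]⟩

lemma half_mem (s : St 𝕜) {y : Linf 𝕜} (hy : y ∈ E s) :
    (2⁻¹ : 𝕜) • (y + s.x) ∈ E s := by
  obtain ⟨h1, h2, h3⟩ := hy
  have key : ∀ i, ((2⁻¹ : 𝕜) • (y + s.x)) i = (2⁻¹ : 𝕜) * (y i + s.x i) := by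
    intro i
    rw [lp.coeFn_smul, Pi.smul_apply, lp.coeFn_add, Pi.add_apply, smul_eq_mul]
  refine ⟨?_, ?_, ?_⟩
  · rw [norm_smul]
    have h4 : ‖(2⁻¹ : 𝕜)‖ = 2⁻¹ := by
      rw [norm_inv]
      norm_num
    rw [h4]
    have h5 := norm_add_le y s.x
    have h6 := s.le
    linarith
  · intro i hi
    rw [key, h2 i hi]
    ring
  · refine h3.mono ?_
    rintro i ⟨hi, hi0⟩
    exact ⟨hi, by rw [key, hi0, s.zero i hi]; ring⟩

section norm

variable (p : Linf 𝕜 → ℝ)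

/-- the supremum of `p` over `E s` -/
def M (s : St 𝕜) : ℝ := sSup (p '' E s)

variable {p} {b : ℝ} (hb : ∀ x, p x ≤ b * ‖x‖) (hb0 : 0 ≤ b)
  (hadd : ∀ x y, p (x + y) ≤ p x + p y) (hsmul : ∀ (c : 𝕜) x, p (c • x) = ‖c‖ * p x)

include hb hb0

lemma bdd (s : St 𝕜) : BddAbove (p '' E s) := by
  refine ⟨b, ?_⟩
  rintro _ ⟨y, hy, rfl⟩
  refine (hb y).trans ?_
  calc b * ‖y‖ ≤ b * 1 := mul_le_mul_of_nonneg_left hy.1 hb0
    _ = b := mul_one b

lemma le_M (s : St 𝕜) {y : Linf 𝕜} (hy : y ∈ E s) : p y ≤ M p s :=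
  le_csSup (bdd hb hb0 s) ⟨y, hy, rfl⟩

include hadd hsmul

lemma lower (s : St 𝕜) {y : Linf 𝕜} (hy : y ∈ E s) : 2 * p s.x - M p s ≤ p y := by
  have h1 := le_M hb hb0 s (refl_mem s hy)
  have h2 := hadd y ((2 : 𝕜) • s.x - y)
  have h3 : y + ((2 : 𝕜) • s.x - y) = (2 : 𝕜) • s.x := by abel
  rw [h3, hsmul] at h2
  have h4 : ‖(2 : 𝕜)‖ = 2 := by norm_num
  rw [h4] at h2
  linarith

lemma step (s : St 𝕜) (ε : ℝ) (hε : 0 < ε) : ∃ (s' : St 𝕜) (q z : ℕ),
    s'.x ∈ E s ∧ s'.N ⊆ s.N ∧ M p s - ε ≤ p s'.x ∧ M p s' ≤ M p s ∧ q ∈ s.N ∧ q ∉ s'.N ∧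
      s'.x q = 1 ∧ z ∈ s.N ∧ z ∉ s'.N ∧ s'.x z = 0 := by
  classical
  have hne : (p '' E s).Nonempty := ⟨_, s.x, self_mem s, rfl⟩
  obtain ⟨_, ⟨y, hy, rfl⟩, hyM⟩ := exists_lt_of_lt_csSup hne
    (show M p s - ε / 2 < sSup (p '' E s) by rw [M]; linarith)
  obtain ⟨h1, h2, h3⟩ := hy
  set N' : Set ℕ := {i | i ∈ s.N ∧ y i = 0} with hN'
  obtain ⟨q, hq⟩ := h3.nonempty
  have h4 : (N' \ {q}).Infinite := h3.sdiff (finite_singleton q)
  obtain ⟨z, hz⟩ := h4.nonempty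
  have h5 : (N' \ {q, z}).Infinite := h3.sdiff (by simp)
  let t : St 𝕜 := ⟨y, N', h1, h3, fun i hi => hi.2⟩
  have hEt : E t ⊆ E s := by
    rintro w ⟨w1, w2, w3⟩
    refine ⟨w1, ?_, ?_⟩
    · intro i hi
      have : i ∉ N' := fun h => hi h.1
      rw [w2 i this]
      exact h2 i hi
    · refine w3.mono ?_
      rintro i ⟨hi, hi0⟩
      exact ⟨hi.1, hi0⟩
  have hMt : M p t ≤ M p s := by
    exact csSup_le_csSup (bdd hb hb0 s) ⟨p t.x, t.x, self_mem t, rfl⟩ (image_mono hEt)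
  let x' : Linf 𝕜 := y + lp.single ∞ q 1
  have hx'q : x' q = 1 := by
    show (y + lp.single ∞ q 1 : Linf 𝕜) q = 1
    rw [lp.coeFn_add, Pi.add_apply, hq.2]
    simp
  have hx'n : ∀ i, i ≠ q → x' i = y i := by
    intro i hi
    show (y + lp.single ∞ q 1 : Linf 𝕜) i = y i
    rw [lp.coeFn_add, Pi.add_apply]
    simp [hi]
  have hx'E : x' ∈ E t := by
    refine ⟨?_, ?_, ?_⟩
    · rw [norm_le_iff zero_le_one]
      intro i
      by_cases hi : i = q
      · rw [hi, hx'q, norm_one]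
      · rw [hx'n i hi]
        exact (norm_le_iff zero_le_one).1 h1 i
    · intro i hi
      exact hx'n i (fun h => hi (h ▸ hq))
    · refine h4.mono ?_
      rintro i ⟨hi, hiq⟩
      exact ⟨hi, by rw [hx'n i hiq]; exact hi.2⟩
  have hpx' : M p s - ε ≤ p x' := by
    have := lower hb hb0 hadd hsmul t hx'E
    have h6 : p t.x = p y := rfl
    rw [h6] at this
    have h7 : M p s - ε / 2 < p y := hyM
    linarith
  let s' : St 𝕜 := ⟨x', N' \ {q, z}, hx'E.1, h5, fun i hi => by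
    rw [hx'n i (fun h => hi.2 (by simp [h]))]
    exact hi.1.2⟩
  have hEs' : E s' ⊆ E s := by
    rintro w ⟨w1, w2, w3⟩
    refine ⟨w1, ?_, ?_⟩
    · intro i hi
      have h8 : i ∉ N' \ {q, z} := fun h => hi h.1.1
      rw [w2 i h8]
      show x' i = _
      rw [hx'n i (fun h => hi (h ▸ hq.1))]
      exact h2 i hi
    · refine w3.mono ?_
      rintro i ⟨hi, hi0⟩
      exact ⟨hi.1.1, hi0⟩
  refine ⟨s', q, z, hEt hx'E, fun i hi => hi.1.1, hpx', ?_, hq.1, fun h => h.2 (by simp), hx'q,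
    hz.1.1, fun h => h.2 (by simp), ?_⟩
  · exact csSup_le_csSup (bdd hb hb0 s) ⟨p s'.x, s'.x, self_mem s', rfl⟩ (image_mono hEs')
  · show x' z = 0
    rw [hx'n z (fun h => hz.2 (by simp [h]))]
    exact hz.1.2

theorem main (a : ℝ) (ha : 0 < a) (hpa : ∀ x, a * ‖x‖ ≤ p x) :
    ∃ (x : Linf 𝕜) (u : ℕ → Linf 𝕜), p x = 1 ∧ (∀ n, p (u n) = 1) ∧
      Tendsto (fun n => p (u n + x)) atTop (𝓝 2) ∧
      ¬ Tendsto (fun n => p (u n - x)) atTop (𝓝 0) := by
  classical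
  choose! nxt q z hnE hnN hnp hnM hqN hqN' hq1 hzN hzN' hz0 using
    (fun (s : St 𝕜) (ε : ℝ) (hε : 0 < ε) => step hb hb0 hadd hsmul s ε hε)
  let s0 : St 𝕜 := ⟨0, univ, by simp, infinite_univ, fun i _ => rfl⟩
  let ε : ℕ → ℝ := fun n => 1 / ((n : ℝ) + 1)
  have hε : ∀ n, 0 < ε n := fun n => by positivity
  let s : ℕ → St 𝕜 := fun n => Nat.rec s0 (fun k t => nxt t (ε k)) n
  have hs : ∀ n, s (n + 1) = nxt (s n) (ε n) := fun n => rfl
  have hNanti : Antitone (fun n => (s n).N) := by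
    apply antitone_nat_of_succ_le
    intro n
    show (s (n + 1)).N ⊆ (s n).N
    rw [hs]
    exact hnN _ _ (hε n)
  have hstep : ∀ n i, i ∉ (s n).N → (s (n + 1)).x i = (s n).x i := by
    intro n i hi
    rw [hs]
    exact (hnE (s n) (ε n) (hε n)).2.1 i hi
  have hstable : ∀ n m, n ≤ m → ∀ i, i ∉ (s n).N → (s m).x i = (s n).x i := by
    intro n m hnm
    induction m, hnm using Nat.le_induction with
    | base => intro i _; rfl
    | succ m hnm ih =>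
      intro i hi
      rw [hstep m i (fun h => hi (hNanti hnm h)), ih i hi]
  -- the limit point
  let f : ℕ → 𝕜 := fun i => if h : ∃ n, i ∉ (s n).N then (s (Nat.find h)).x i else 0
  have hf : ∀ n i, i ∉ (s n).N → f i = (s n).x i := by
    intro n i hi
    have h : ∃ n, i ∉ (s n).N := ⟨n, hi⟩
    show (if h : ∃ n, i ∉ (s n).N then (s (Nat.find h)).x i else 0) = _
    rw [dif_pos h]
    exact (hstable _ _ (Nat.find_min' h hi) i (Nat.find_spec h)).symm
  have hf1 : ∀ i, ‖f i‖ ≤ 1 := by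
    intro i
    by_cases h : ∃ n, i ∉ (s n).N
    · obtain ⟨n, hn⟩ := h
      rw [hf n i hn]
      exact (norm_le_iff zero_le_one).1 (s n).le i
    · show ‖(if h : ∃ n, i ∉ (s n).N then (s (Nat.find h)).x i else 0)‖ ≤ 1
      rw [dif_neg h, norm_zero]
      exact zero_le_one
  let x : Linf 𝕜 := ⟨f, memℓp_infty ⟨1, by rintro _ ⟨i, rfl⟩; exact hf1 i⟩⟩
  have hx : ∀ i, x i = f i := fun i => rfl
  let Z : ℕ → ℕ := fun n => z (s n) (ε n)
  let Q : ℕ → ℕ := fun n => q (s n) (ε n)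
  have hZ : ∀ n, Z n ∈ (s n).N := fun n => hzN _ _ (hε n)
  have hZ' : ∀ n, Z n ∉ (s (n + 1)).N := fun n => by rw [hs]; exact hzN' _ _ (hε n)
  have hZ0 : ∀ n, x (Z n) = 0 := fun n => by
    rw [hx, hf (n + 1) _ (hZ' n), hs]
    exact hz0 _ _ (hε n)
  have hZinj : Function.Injective Z := by
    intro n m hnm
    by_contra hne
    rcases lt_or_gt_of_ne hne with h | h
    · exact hZ' n (hNanti (Nat.succ_le_of_lt h) (hnm ▸ hZ m))
    · exact hZ' m (hNanti (Nat.succ_le_of_lt h) (hnm ▸ hZ n))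
  have hxE : ∀ n, x ∈ E (s n) := by
    intro n
    refine ⟨?_, fun i hi => hf n i hi, ?_⟩
    · rw [norm_le_iff zero_le_one]
      exact hf1
    · have h1 : (Z '' Set.Ici n).Infinite := (Set.Ici_infinite n).image hZinj.injOn
      refine h1.mono ?_
      rintro _ ⟨m, hm, rfl⟩
      exact ⟨hNanti hm (hZ m), hZ0 m⟩
  have hMa : Antitone (fun n => M p (s n)) := by
    apply antitone_nat_of_succ_le
    intro n
    show M p (s (n + 1)) ≤ M p (s n)
    rw [hs]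
    exact hnM _ _ (hε n)
  have hpx : ∀ n, p (s (n + 1)).x ≥ M p (s n) - ε n := fun n => by
    rw [hs]
    exact hnp _ _ (hε n)
  have hge : ∀ n, ∀ y ∈ E (s (n + 1)), M p (s (n + 1)) - 2 * ε n ≤ p y := by
    intro n y hy
    have h1 := lower hb hb0 hadd hsmul _ hy
    have h2 := hpx n
    have h3 : M p (s (n + 1)) ≤ M p (s n) := hMa (Nat.le_succ n)
    linarith
  have hle : ∀ n, ∀ y ∈ E (s n), p y ≤ M p (s n) := fun n y hy => le_M hb hb0 _ hy
  have hεt : Tendsto ε atTop (𝓝 0) := tendsto_one_div_add_atTop_nhds_zero_nat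
  -- `M p (s n)` converges to `p x`
  have hMt : Tendsto (fun n => M p (s (n + 1))) atTop (𝓝 (p x)) := by
    have h1 : Tendsto (fun n => p x + 2 * ε n) atTop (𝓝 (p x)) := by
      have := (hεt.const_mul 2).const_add (p x)
      simpa using this
    refine tendsto_of_tendsto_of_tendsto_of_le_of_le tendsto_const_nhds h1 ?_ ?_
    · intro n; exact hle (n + 1) x (hxE (n + 1))
    · intro n
      have := hge n x (hxE (n + 1))
      show M p (s (n + 1)) ≤ p x + 2 * ε n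
      linarith
  have hgen : ∀ y : ℕ → Linf 𝕜, (∀ n, y n ∈ E (s (n + 1))) →
      Tendsto (fun n => p (y n)) atTop (𝓝 (p x)) := by
    intro y hy
    have h1 : Tendsto (fun n => M p (s (n + 1)) - 2 * ε n) atTop (𝓝 (p x)) := by
      have := hMt.sub (hεt.const_mul 2)
      simpa using this
    exact tendsto_of_tendsto_of_tendsto_of_le_of_le h1 hMt (fun n => hge n (y n) (hy n))
      (fun n => hle (n + 1) (y n) (hy n))
  have ht1 : Tendsto (fun n => p (s (n + 1)).x) atTop (𝓝 (p x)) :=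
    hgen (fun n => (s (n + 1)).x) (fun n => self_mem (s (n + 1)))
  have ht2 : Tendsto (fun n => p ((2⁻¹ : 𝕜) • (x + (s (n + 1)).x))) atTop (𝓝 (p x)) :=
    hgen (fun n => (2⁻¹ : 𝕜) • (x + (s (n + 1)).x)) (fun n => half_mem (s (n + 1)) (hxE (n + 1)))
  have ht3 : Tendsto (fun n => p (x + (s (n + 1)).x)) atTop (𝓝 (2 * p x)) := by
    have h1 := ht2.const_mul 2
    refine h1.congr fun n => ?_
    rw [hsmul, norm_inv]
    norm_num
    ring
  have hQ : ∀ n, Q n ∈ (s n).N := fun n => hqN _ _ (hε n)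
  have hQ' : ∀ n, Q n ∉ (s (n + 1)).N := fun n => by rw [hs]; exact hqN' _ _ (hε n)
  have hQ1 : ∀ n, x (Q n) = 1 := fun n => by
    rw [hx, hf (n + 1) _ (hQ' n), hs]
    exact hq1 _ _ (hε n)
  have hdist : ∀ n, 1 ≤ ‖(s n).x - x‖ := by
    intro n
    have h1 := lp.norm_apply_le_norm (by simp) ((s n).x - x) (Q n)
    rw [lp.coeFn_sub, Pi.sub_apply, (s n).zero _ (hQ n), hQ1, zero_sub, norm_neg, norm_one] at h1
    exact h1
  have hxn : 1 ≤ ‖x‖ := by
    have h1 := lp.norm_apply_le_norm (by simp) x (Q 0)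
    rw [hQ1, norm_one] at h1
    exact h1
  have hpx0 : 0 < p x := by
    have := hpa x
    nlinarith
  have hp0 : ∀ y, 0 ≤ p y := fun y => (mul_nonneg ha.le (norm_nonneg _)).trans (hpa y)
  -- eventually positive norms; shift
  have hev : ∀ᶠ n in atTop, p x / 2 < p (s (n + 1)).x :=
    ht1.eventually (lt_mem_nhds (by linarith))
  obtain ⟨n0, hn0⟩ := eventually_atTop.1 hev
  let v : ℕ → Linf 𝕜 := fun n => (s (n + n0 + 1)).x
  have hv : ∀ n, p x / 2 < p (v n) := fun n => hn0 _ (by omega)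
  have hvpos : ∀ n, 0 < p (v n) := fun n => lt_trans (by linarith) (hv n)
  have hvt : Tendsto (fun n => p (v n)) atTop (𝓝 (p x)) := ht1.comp (tendsto_add_atTop_nat n0)
  have hvt3 : Tendsto (fun n => p (x + v n)) atTop (𝓝 (2 * p x)) :=
    ht3.comp (tendsto_add_atTop_nat n0)
  have hsm : ∀ (c : ℝ) (hc : 0 ≤ c) (y : Linf 𝕜), p ((c : 𝕜) • y) = c * p y := by
    intro c hc y
    rw [hsmul, RCLike.norm_ofReal, abs_of_nonneg hc]
  refine ⟨(((p x)⁻¹ : ℝ) : 𝕜) • x, fun n => (((p (v n))⁻¹ : ℝ) : 𝕜) • v n, ?_, ?_, ?_, ?_⟩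
  · rw [hsm _ (by positivity), inv_mul_cancel₀ hpx0.ne']
  · intro n
    rw [hsm _ (inv_nonneg.2 (hp0 _)), inv_mul_cancel₀ (hvpos n).ne']
  · -- p (v/p v + x/p x) → 2
    have hc : Tendsto (fun n => |(p (v n))⁻¹ - (p x)⁻¹|) atTop (𝓝 0) := by
      have h1 : Tendsto (fun n => (p (v n))⁻¹ - (p x)⁻¹) atTop (𝓝 0) := by
        have := (hvt.inv₀ hpx0.ne').sub_const (p x)⁻¹
        simpa using this
      have := h1.abs
      simpa using this
    have hlow : ∀ n, (p x)⁻¹ * p (x + v n) - |(p (v n))⁻¹ - (p x)⁻¹| * p (v n) ≤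
        p ((((p (v n))⁻¹ : ℝ) : 𝕜) • v n + (((p x)⁻¹ : ℝ) : 𝕜) • x) := by
      intro n
      have h1 : (((p x)⁻¹ : ℝ) : 𝕜) • (x + v n) =
          ((((p (v n))⁻¹ : ℝ) : 𝕜) • v n + (((p x)⁻¹ : ℝ) : 𝕜) • x) +
          (-(((p (v n))⁻¹ - (p x)⁻¹ : ℝ) : 𝕜)) • v n := by
        push_cast
        module
      have h2 := hadd ((((p (v n))⁻¹ : ℝ) : 𝕜) • v n + (((p x)⁻¹ : ℝ) : 𝕜) • x)
        ((-(((p (v n))⁻¹ - (p x)⁻¹ : ℝ) : 𝕜)) • v n)
      rw [← h1, hsm _ (by positivity), hsmul, norm_neg, RCLike.norm_ofReal] at h2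
      linarith
    have hup : ∀ n, p ((((p (v n))⁻¹ : ℝ) : 𝕜) • v n + (((p x)⁻¹ : ℝ) : 𝕜) • x) ≤ 2 := by
      intro n
      refine (hadd _ _).trans ?_
      rw [hsm _ (inv_nonneg.2 (hp0 _)), hsm _ (by positivity), inv_mul_cancel₀ (hvpos n).ne',
        inv_mul_cancel₀ hpx0.ne']
      norm_num
    have hlt : Tendsto (fun n => (p x)⁻¹ * p (x + v n) - |(p (v n))⁻¹ - (p x)⁻¹| * p (v n))
        atTop (𝓝 2) := by
      have h1 := (hvt3.const_mul (p x)⁻¹).sub (hc.mul hvt)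
      have h2 : (p x)⁻¹ * (2 * p x) - 0 * p x = 2 := by
        field_simp
        ring
      rw [h2] at h1
      exact h1
    exact tendsto_of_tendsto_of_tendsto_of_le_of_le hlt tendsto_const_nhds hlow hup
  · intro hcon
    -- would give `v n → x`
    have h1 : ∀ n, p (v n - x) ≤ p (v n) *
        p ((((p (v n))⁻¹ : ℝ) : 𝕜) • v n - (((p x)⁻¹ : ℝ) : 𝕜) • x) +
        |p (v n) * (p x)⁻¹ - 1| * p x := by
      intro n
      have e1 : v n - x = ((p (v n) : ℝ) : 𝕜) •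
          ((((p (v n))⁻¹ : ℝ) : 𝕜) • v n - (((p x)⁻¹ : ℝ) : 𝕜) • x) +
          (((p (v n) * (p x)⁻¹ - 1 : ℝ) : 𝕜)) • x := by
        have hne : ((p (v n) : ℝ) : 𝕜) ≠ 0 := by
          exact_mod_cast (hvpos n).ne'
        rw [smul_sub, smul_smul, smul_smul]
        push_cast
        rw [mul_inv_cancel₀ hne]
        module
      have e2 := hadd (((p (v n) : ℝ) : 𝕜) •
          ((((p (v n))⁻¹ : ℝ) : 𝕜) • v n - (((p x)⁻¹ : ℝ) : 𝕜) • x))
          ((((p (v n) * (p x)⁻¹ - 1 : ℝ) : 𝕜)) • x)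
      rw [← e1, hsm _ (hp0 _), hsmul, RCLike.norm_ofReal] at e2
      exact e2
    have h2 : Tendsto (fun n => p (v n) *
        p ((((p (v n))⁻¹ : ℝ) : 𝕜) • v n - (((p x)⁻¹ : ℝ) : 𝕜) • x) +
        |p (v n) * (p x)⁻¹ - 1| * p x) atTop (𝓝 0) := by
      have e1 := hvt.mul hcon
      have e2 : Tendsto (fun n => |p (v n) * (p x)⁻¹ - 1| * p x) atTop (𝓝 0) := by
        have e3 := (((hvt.mul_const (p x)⁻¹).sub_const 1).abs).mul_const (p x)
        have e4 : |p x * (p x)⁻¹ - 1| * p x = 0 := by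
          rw [mul_inv_cancel₀ hpx0.ne']
          simp
        rw [e4] at e3
        exact e3
      have e5 := e1.add e2
      simpa using e5
    have h3 : Tendsto (fun n => p (v n - x)) atTop (𝓝 0) :=
      squeeze_zero (fun n => hp0 _) h1 h2
    have h4 : ∀ n, a ≤ p (v n - x) := by
      intro n
      have := hpa (v n - x)
      have h5 := hdist (n + n0 + 1)
      nlinarith
    have h5 := ge_of_tendsto' h3 h4
    linarith

end norm

end

end Pool.Agent.H787R2.NoLUR
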