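import Mathlib

set_option autoImplicit false
set_option linter.unnecessarySimpa false

open Filter Topology Finset

namespace Pool.Agent.H787R2.StrongMB

variable {𝕜 : Type*} [RCLike 𝕜]

section HB
variable {E : Type*} [NormedAddCommGroup E] [NormedSpace 𝕜 E]

/-- Hahn-Banach: a point outside a closed subspace is separated from it by a functional. -/
theorem exists_dual_of_notMem (p : Submodule 𝕜 E) (hp : IsClosed (p : Set E)) {x : E} (hx : x ∉ p) :
    ∃ g : StrongDual 𝕜 E, g x ≠ 0 ∧ ∀ y ∈ p, g y = 0 := by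
  have : IsClosed (p : Set E) := hp
  have hne : p.mkQL x ≠ 0 := by
    rw [Submodule.mkQL_apply, Ne, Submodule.mkQ_apply, Submodule.Quotient.mk_eq_zero]
    exact hx
  obtain ⟨g, hg1, hg2⟩ := exists_dual_vector 𝕜 (p.mkQL x) (norm_ne_zero_iff.2 hne)
  refine ⟨g.comp p.mkQL, ?_, ?_⟩
  · rw [ContinuousLinearMap.comp_apply, hg2]
    exact_mod_cast norm_ne_zero_iff.2 hne
  · intro y hy
    rw [ContinuousLinearMap.comp_apply, Submodule.mkQL_apply, Submodule.mkQ_apply,
      (Submodule.Quotient.mk_eq_zero p).2 hy, map_zero]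

/-- If the dual is separable, there is a sequence in `E` with dense span. -/
theorem exists_dense_span (g : ℕ → StrongDual 𝕜 E) (hg : DenseRange g) :
    ∃ z : ℕ → E, (Submodule.span 𝕜 (Set.range z)).topologicalClosure = ⊤ := by
  have h1 : ∀ n, ∃ z : E, ‖z‖ ≤ 1 ∧ ‖g n‖ / 2 ≤ ‖g n z‖ := by
    intro n
    rcases eq_or_ne (g n) 0 with h0 | h0
    · exact ⟨0, by simp, by simp [h0]⟩
    · have hpos : 0 < ‖g n‖ := norm_pos_iff.2 h0
      obtain ⟨z, hz1, hz2⟩ := ContinuousLinearMap.exists_lt_apply_of_lt_opNorm (g n)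
        (show ‖g n‖ / 2 < ‖g n‖ by linarith)
      exact ⟨z, hz1.le, hz2.le⟩
  choose z hz1 hz2 using h1
  refine ⟨z, ?_⟩
  by_contra hne
  obtain ⟨x, hx⟩ : ∃ x, x ∉ (Submodule.span 𝕜 (Set.range z)).topologicalClosure := by
    by_contra hcon
    push Not at hcon
    exact hne (eq_top_iff.2 fun x _ => hcon x)
  obtain ⟨f, hf1, hf2⟩ := exists_dual_of_notMem _ (Submodule.isClosed_topologicalClosure _) hx
  have hf0 : 0 < ‖f‖ := by
    rw [norm_pos_iff]
    rintro rfl
    exact hf1 rfl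
  obtain ⟨n, hn⟩ := Metric.denseRange_iff.1 hg f (‖f‖ / 4) (by positivity)
  rw [dist_eq_norm] at hn
  have h3 : f (z n) = 0 := hf2 _ (Submodule.le_topologicalClosure _ (Submodule.subset_span ⟨n, rfl⟩))
  have h4 : ‖g n (z n)‖ ≤ ‖f - g n‖ := by
    have h5 : ‖(f - g n) (z n)‖ ≤ ‖f - g n‖ * ‖z n‖ := (f - g n).le_opNorm _
    have h6 : (f - g n) (z n) = - g n (z n) := by
      change f (z n) - g n (z n) = _
      rw [h3, zero_sub]
    rw [h6, norm_neg] at h5
    calc ‖g n (z n)‖ ≤ ‖f - g n‖ * ‖z n‖ := h5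
      _ ≤ ‖f - g n‖ * 1 := mul_le_mul_of_nonneg_left (hz1 n) (norm_nonneg _)
      _ = ‖f - g n‖ := mul_one _
  have h7 := hz2 n
  have h8 : ‖f‖ ≤ ‖f - g n‖ + ‖g n‖ := by
    have := norm_add_le (f - g n) (g n)
    rwa [sub_add_cancel] at this
  linarith

end HB

section hist

variable {α : Type*}

/-- Dependent choice with history. -/
theorem exists_seq_hist (Inv : List α → Prop) (R : List α → α → Prop) (h0 : Inv [])
    (hs : ∀ l, Inv l → ∃ a, R l a ∧ Inv (l ++ [a])) :
    ∃ p : ℕ → α, ∀ n, Inv ((List.range n).map p) ∧ R ((List.range n).map p) (p n) := by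
  obtain ⟨a₀, -⟩ := hs [] h0
  have : Nonempty α := ⟨a₀⟩
  choose! c hc using hs
  let L : ℕ → List α := fun n => Nat.rec [] (fun _ l => l ++ [c l]) n
  have hL0 : L 0 = [] := rfl
  have hLs : ∀ n, L (n + 1) = L n ++ [c (L n)] := fun n => rfl
  have hInv : ∀ n, Inv (L n) := by
    intro n
    induction n with
    | zero => exact h0
    | succ n ih => rw [hLs]; exact (hc _ ih).2
  have hmap : ∀ n, (List.range n).map (fun k => c (L k)) = L n := by
    intro n
    induction n with
    | zero => rfl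
    | succ n ih => rw [List.range_succ, List.map_append, ih, hLs]; rfl
  refine ⟨fun k => c (L k), fun n => ?_⟩
  rw [hmap]
  exact ⟨hInv n, (hc _ (hInv n)).1⟩

end hist

section mbasis

variable {E : Type*} [NormedAddCommGroup E] [NormedSpace 𝕜 E]

theorem exists_notMem_of_fg (hE : ¬ FiniteDimensional 𝕜 E) (l : List E) :
    ∃ x, x ∉ Submodule.span 𝕜 {x | x ∈ l} := by
  by_contra hcon
  push Not at hcon
  apply hE
  have h1 : Submodule.span 𝕜 {x | x ∈ l} = ⊤ := eq_top_iff.2 fun x _ => hcon x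
  have h2 : (⊤ : Submodule 𝕜 E).FG := by
    rw [← h1]
    exact Submodule.fg_span l.finite_toSet
  exact ⟨h2⟩

/-- finite biorthogonal lists -/
def Bi (l : List (E × StrongDual 𝕜 E)) : Prop :=
  l.Pairwise (fun p q => p.2 q.1 = 0 ∧ q.2 p.1 = 0) ∧ ∀ p ∈ l, p.2 p.1 = 1

/-- span of the vectors -/
def spx (l : List (E × StrongDual 𝕜 E)) : Submodule 𝕜 E := Submodule.span 𝕜 {x | x ∈ l.map Prod.fst}
/-- span of the functionals -/
def spf (l : List (E × StrongDual 𝕜 E)) : Submodule 𝕜 (StrongDual 𝕜 E) :=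
  Submodule.span 𝕜 {f | f ∈ l.map Prod.snd}

theorem spx_mono {l l' : List (E × StrongDual 𝕜 E)} (h : ∀ p ∈ l, p ∈ l') : spx l ≤ spx l' := by
  apply Submodule.span_mono
  intro x hx
  simp only [Set.mem_ofPred_eq, List.mem_map] at hx ⊢
  obtain ⟨p, hp, rfl⟩ := hx
  exact ⟨p, h p hp, rfl⟩

theorem spf_mono {l l' : List (E × StrongDual 𝕜 E)} (h : ∀ p ∈ l, p ∈ l') : spf l ≤ spf l' := by
  apply Submodule.span_mono
  intro x hx
  simp only [Set.mem_ofPred_eq, List.mem_map] at hx ⊢
  obtain ⟨p, hp, rfl⟩ := hx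
  exact ⟨p, h p hp, rfl⟩

theorem mem_spx {l : List (E × StrongDual 𝕜 E)} {p : E × StrongDual 𝕜 E} (hp : p ∈ l) : p.1 ∈ spx l :=
  Submodule.subset_span (List.mem_map_of_mem hp)

theorem mem_spf {l : List (E × StrongDual 𝕜 E)} {p : E × StrongDual 𝕜 E} (hp : p ∈ l) : p.2 ∈ spf l :=
  Submodule.subset_span (List.mem_map_of_mem hp)

theorem proj_x (l : List (E × StrongDual 𝕜 E)) (hl : Bi l) (z : E) :
    ∃ z', (∀ q ∈ l, q.2 z' = 0) ∧ z - z' ∈ spx l := by
  induction l with
  | nil => exact ⟨z, by simp, by simp⟩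
  | cons p t ih =>
    obtain ⟨h1, h2⟩ := hl
    rw [List.pairwise_cons] at h1
    obtain ⟨w, hw1, hw2⟩ := ih ⟨h1.2, fun q hq => h2 q (List.mem_cons_of_mem _ hq)⟩
    refine ⟨w - p.2 w • p.1, ?_, ?_⟩
    · intro q hq
      rcases List.mem_cons.1 hq with rfl | hq
      · rw [map_sub, map_smul, h2 _ List.mem_cons_self, smul_eq_mul, mul_one, sub_self]
      · rw [map_sub, map_smul, hw1 q hq, (h1.1 q hq).2, smul_zero, sub_zero]
    · have h3 : z - (w - p.2 w • p.1) = (z - w) + p.2 w • p.1 := by abel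
      rw [h3]
      exact Submodule.add_mem _ (spx_mono (fun q hq => List.mem_cons_of_mem _ hq) hw2)
        (Submodule.smul_mem _ _ (mem_spx List.mem_cons_self))

theorem proj_f (l : List (E × StrongDual 𝕜 E)) (hl : Bi l) (g : StrongDual 𝕜 E) :
    ∃ g', (∀ q ∈ l, g' q.1 = 0) ∧ g - g' ∈ spf l := by
  induction l with
  | nil => exact ⟨g, by simp, by simp⟩
  | cons p t ih =>
    obtain ⟨h1, h2⟩ := hl
    rw [List.pairwise_cons] at h1
    obtain ⟨w, hw1, hw2⟩ := ih ⟨h1.2, fun q hq => h2 q (List.mem_cons_of_mem _ hq)⟩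
    refine ⟨w - w p.1 • p.2, ?_, ?_⟩
    · intro q hq
      rcases List.mem_cons.1 hq with rfl | hq
      · change w q.1 - w q.1 • q.2 q.1 = 0
        rw [h2 _ List.mem_cons_self, smul_eq_mul, mul_one, sub_self]
      · change w q.1 - w p.1 • p.2 q.1 = 0
        rw [hw1 q hq, (h1.1 q hq).1, smul_zero, sub_zero]
    · have h3 : g - (w - w p.1 • p.2) = (g - w) + w p.1 • p.2 := by abel
      rw [h3]
      exact Submodule.add_mem _ (spf_mono (fun q hq => List.mem_cons_of_mem _ hq) hw2)
        (Submodule.smul_mem _ _ (mem_spf List.mem_cons_self))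

theorem spf_vanish (l : List (E × StrongDual 𝕜 E)) {y : E} (hy : ∀ q ∈ l, q.2 y = 0)
    {g : StrongDual 𝕜 E} (hg : g ∈ spf l) : g y = 0 := by
  unfold spf at hg
  induction hg using Submodule.span_induction with
  | mem x hx =>
    simp only [Set.mem_ofPred_eq, List.mem_map] at hx
    obtain ⟨q, hq, rfl⟩ := hx
    exact hy q hq
  | zero => rfl
  | add a b _ _ ha hb => change a y + b y = 0; rw [ha, hb, add_zero]
  | smul c a _ ha => change c • a y = 0; rw [ha, smul_zero]

theorem spx_vanish (l : List (E × StrongDual 𝕜 E)) {g : StrongDual 𝕜 E} (hg : ∀ q ∈ l, g q.1 = 0)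
    {y : E} (hy : y ∈ spx l) : g y = 0 := by
  unfold spx at hy
  induction hy using Submodule.span_induction with
  | mem x hx =>
    simp only [Set.mem_ofPred_eq, List.mem_map] at hx
    obtain ⟨q, hq, rfl⟩ := hx
    exact hg q hq
  | zero => exact map_zero g
  | add a b _ _ ha hb => rw [map_add, ha, hb, add_zero]
  | smul c a _ ha => rw [map_smul, ha, smul_zero]

theorem Bi_append {l : List (E × StrongDual 𝕜 E)} (hl : Bi l) {a : E × StrongDual 𝕜 E}
    (h1 : ∀ q ∈ l, q.2 a.1 = 0) (h2 : ∀ q ∈ l, a.2 q.1 = 0) (h3 : a.2 a.1 = 1) : Bi (l ++ [a]) := by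
  refine ⟨?_, ?_⟩
  · rw [List.pairwise_append]
    refine ⟨hl.1, List.pairwise_singleton _ _, ?_⟩
    intro p hp q hq
    rw [List.mem_singleton] at hq
    subst hq
    exact ⟨h1 p hp, h2 p hp⟩
  · intro p hp
    rcases List.mem_append.1 hp with hp | hp
    · exact hl.2 p hp
    · rw [List.mem_singleton] at hp
      subst hp
      exact h3

theorem step_x (hE : ¬ FiniteDimensional 𝕜 E) (l : List (E × StrongDual 𝕜 E)) (hl : Bi l) (z : E) :
    ∃ a, Bi (l ++ [a]) ∧ z ∈ spx (l ++ [a]) := by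
  have key : ∀ y, y ∉ spx l → ∃ a, Bi (l ++ [a]) ∧ y ∈ spx (l ++ [a]) := by
    intro y hy
    obtain ⟨y', hy1, hy2⟩ := proj_x l hl y
    have hne : y' ≠ 0 := by
      rintro rfl
      rw [sub_zero] at hy2
      exact hy hy2
    obtain ⟨h, -, hh⟩ := exists_dual_vector 𝕜 y' (norm_ne_zero_iff.2 hne)
    have hh0 : h y' ≠ 0 := by rw [hh]; exact_mod_cast norm_ne_zero_iff.2 hne
    obtain ⟨h', hh1, hh2⟩ := proj_f l hl ((h y')⁻¹ • h)
    have h3 : h' y' = 1 := by
      have h4 := spf_vanish l hy1 hh2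
      change (h y')⁻¹ • h y' - h' y' = 0 at h4
      rw [smul_eq_mul, inv_mul_cancel₀ hh0] at h4
      exact (sub_eq_zero.1 h4).symm
    refine ⟨(y', h'), Bi_append hl hy1 hh1 h3, ?_⟩
    have h5 : y = (y - y') + y' := by abel
    rw [h5]
    exact Submodule.add_mem _ (spx_mono (fun q hq => List.mem_append_left _ hq) hy2)
      (mem_spx (p := (y', h')) (List.mem_append_right _ (List.mem_singleton_self _)))
  by_cases hz : z ∈ spx l
  · obtain ⟨y, hy⟩ := exists_notMem_of_fg hE (l.map Prod.fst)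
    obtain ⟨a, ha, -⟩ := key y hy
    exact ⟨a, ha, spx_mono (fun q hq => List.mem_append_left _ hq) hz⟩
  · exact key z hz

theorem step_f (hE : ¬ FiniteDimensional 𝕜 (StrongDual 𝕜 E)) (l : List (E × StrongDual 𝕜 E))
    (hl : Bi l) (g : StrongDual 𝕜 E) :
    ∃ a, Bi (l ++ [a]) ∧ g ∈ spf (l ++ [a]) := by
  have key : ∀ g, g ∉ spf l → ∃ a, Bi (l ++ [a]) ∧ g ∈ spf (l ++ [a]) := by
    intro g hg
    obtain ⟨g', hg1, hg2⟩ := proj_f l hl g
    have hne : g' ≠ 0 := by
      rintro rfl
      rw [sub_zero] at hg2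
      exact hg hg2
    obtain ⟨y, hy⟩ : ∃ y, g' y ≠ 0 := by
      by_contra hcon
      push Not at hcon
      exact hne (ContinuousLinearMap.ext hcon)
    obtain ⟨y', hy1, hy2⟩ := proj_x l hl ((g' y)⁻¹ • y)
    have h3 : g' y' = 1 := by
      have h4 := spx_vanish l hg1 hy2
      rw [map_sub, map_smul, smul_eq_mul, inv_mul_cancel₀ hy] at h4
      exact (sub_eq_zero.1 h4).symm
    refine ⟨(y', g'), Bi_append hl hy1 hg1 h3, ?_⟩
    have h5 : g = (g - g') + g' := by abel
    rw [h5]
    exact Submodule.add_mem _ (spf_mono (fun q hq => List.mem_append_left _ hq) hg2)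
      (mem_spf (p := (y', g')) (List.mem_append_right _ (List.mem_singleton_self _)))
  by_cases hz : g ∈ spf l
  · obtain ⟨y, hy⟩ := exists_notMem_of_fg hE (l.map Prod.snd)
    obtain ⟨a, ha, -⟩ := key y hy
    exact ⟨a, ha, spf_mono (fun q hq => List.mem_append_left _ hq) hz⟩
  · exact key g hz

theorem finiteDimensional_of_dual (h : FiniteDimensional 𝕜 (StrongDual 𝕜 E)) :
    FiniteDimensional 𝕜 E := by
  have := h
  obtain ⟨S, hS⟩ : (⊤ : Submodule 𝕜 (StrongDual 𝕜 E)).FG := h.fg_top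
  let T : E →ₗ[𝕜] (S → 𝕜) :=
    { toFun := fun x s => s.1 x
      map_add' := fun x y => by funext s; exact map_add s.1 x y
      map_smul' := fun c x => by funext s; exact map_smul s.1 c x }
  have hT : Function.Injective T := by
    rw [injective_iff_map_eq_zero]
    intro x hx
    have h1 : ∀ g : StrongDual 𝕜 E, g x = 0 := by
      intro g
      have hg : g ∈ Submodule.span 𝕜 (S : Set (StrongDual 𝕜 E)) := by rw [hS]; trivial
      induction hg using Submodule.span_induction with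
      | mem s hs => exact congrFun hx ⟨s, hs⟩
      | zero => rfl
      | add a b _ _ ha hb => change a x + b x = 0; rw [ha, hb, add_zero]
      | smul c a _ ha => change c • a x = 0; rw [ha, smul_zero]
    by_contra hne
    obtain ⟨h, -, hh⟩ := exists_dual_vector 𝕜 x (norm_ne_zero_iff.2 hne)
    rw [h1 h] at hh
    exact hne (norm_eq_zero.1 (by exact_mod_cast hh.symm))
  exact FiniteDimensional.of_injective T hT

/-- Existence of a shrinking M-basis when the dual is separable. -/
theorem exists_mbasis (hE : ¬ FiniteDimensional 𝕜 E)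
    [TopologicalSpace.SeparableSpace (StrongDual 𝕜 E)] :
    ∃ (x : ℕ → E) (f : ℕ → StrongDual 𝕜 E), (∀ i j, f i (x j) = if i = j then 1 else 0) ∧
      (Submodule.span 𝕜 (Set.range x)).topologicalClosure = ⊤ ∧
      (Submodule.span 𝕜 (Set.range f)).topologicalClosure = ⊤ := by
  have : Nonempty (StrongDual 𝕜 E) := ⟨0⟩
  obtain ⟨g, hg⟩ := TopologicalSpace.exists_dense_seq (StrongDual 𝕜 E)
  obtain ⟨z, hz⟩ := exists_dense_span g hg
  have hD : ¬ FiniteDimensional 𝕜 (StrongDual 𝕜 E) := fun h => hE (finiteDimensional_of_dual h)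
  obtain ⟨p, hp⟩ := exists_seq_hist (α := E × StrongDual 𝕜 E) Bi
    (fun l a => (Even l.length → z (l.length / 2) ∈ spx (l ++ [a])) ∧
      (¬ Even l.length → g (l.length / 2) ∈ spf (l ++ [a])))
    ⟨List.Pairwise.nil, by simp⟩ (by
      intro l hl
      by_cases he : Even l.length
      · obtain ⟨a, ha1, ha2⟩ := step_x hE l hl (z (l.length / 2))
        exact ⟨a, ⟨fun _ => ha2, fun h => absurd he h⟩, ha1⟩
      · obtain ⟨a, ha1, ha2⟩ := step_f hD l hl (g (l.length / 2))
        exact ⟨a, ⟨fun h => absurd h he, fun _ => ha2⟩, ha1⟩)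
  have hmapsucc : ∀ n, (List.range n).map p ++ [p n] = (List.range (n + 1)).map p := by
    intro n
    rw [List.range_succ, List.map_append]; rfl
  have hbi : ∀ i j, (p i).2 (p j).1 = if i = j then 1 else 0 := by
    intro i j
    obtain ⟨h1, h2⟩ := (hp (max i j + 1)).1
    rw [List.pairwise_map, List.pairwise_iff_getElem] at h1
    have hi : i < max i j + 1 := by omega
    have hj : j < max i j + 1 := by omega
    rcases lt_trichotomy i j with h | h | h
    · have := h1 i j (by simpa using hi) (by simpa using hj) h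
      simp only [List.getElem_range] at this
      rw [this.1, if_neg h.ne]
    · subst h
      rw [if_pos rfl]
      exact h2 _ (List.mem_map_of_mem (List.mem_range.2 hi))
    · have := h1 j i (by simpa using hj) (by simpa using hi) h
      simp only [List.getElem_range] at this
      rw [this.2, if_neg h.ne']
  have hspx : ∀ n, spx ((List.range n).map p) ≤ Submodule.span 𝕜 (Set.range fun n => (p n).1) := by
    intro n
    apply Submodule.span_mono
    intro x hx
    simp only [Set.mem_ofPred_eq, List.mem_map] at hx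
    obtain ⟨q, ⟨k, -, rfl⟩, rfl⟩ := hx
    exact ⟨k, rfl⟩
  have hspf : ∀ n, spf ((List.range n).map p) ≤ Submodule.span 𝕜 (Set.range fun n => (p n).2) := by
    intro n
    apply Submodule.span_mono
    intro x hx
    simp only [Set.mem_ofPred_eq, List.mem_map] at hx
    obtain ⟨q, ⟨k, -, rfl⟩, rfl⟩ := hx
    exact ⟨k, rfl⟩
  refine ⟨fun n => (p n).1, fun n => (p n).2, hbi, ?_, ?_⟩
  · rw [eq_top_iff, ← hz]
    apply Submodule.topologicalClosure_mono
    rw [Submodule.span_le]
    rintro _ ⟨k, rfl⟩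
    have h1 := (hp (2 * k)).2.1 (by simp)
    rw [hmapsucc] at h1
    simp only [List.length_map, List.length_range] at h1
    rw [Nat.mul_div_cancel_left _ (by norm_num)] at h1
    exact hspx _ h1
  · rw [eq_top_iff]
    intro h _
    have h2 : h ∈ closure (Set.range g) := hg h
    refine closure_mono ?_ h2
    rintro _ ⟨k, rfl⟩
    have h1 := (hp (2 * k + 1)).2.2 (by simp)
    rw [hmapsucc] at h1
    simp only [List.length_map, List.length_range] at h1
    have h3 : (2 * k + 1) / 2 = k := by omega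
    rw [h3] at h1
    exact hspf _ h1

end mbasis

end Pool.Agent.H787R2.StrongMB
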