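import Pool.Agent.H787R2.StrongMB1

set_option autoImplicit false
set_option linter.unnecessarySimpa false

open Filter Topology Finset

namespace Pool.Agent.H787R2.StrongMB

variable {𝕜 : Type*} [RCLike 𝕜]

section norming

variable {A B : Type*} [NormedAddCommGroup A] [NormedSpace 𝕜 A] [NormedAddCommGroup B] [NormedSpace 𝕜 B]

theorem mem_span_lt (b : ℕ → B) {z : B} (hz : z ∈ Submodule.span 𝕜 (Set.range b)) :
    ∃ q : ℕ, z ∈ Submodule.span 𝕜 (b '' {n | n < q}) := by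
  have hmono : ∀ q q' : ℕ, q ≤ q' → Submodule.span 𝕜 (b '' {n | n < q}) ≤
      Submodule.span 𝕜 (b '' {n | n < q'}) := fun q q' h =>
    Submodule.span_mono (Set.image_mono fun n (hn : n < q) => lt_of_lt_of_le hn h)
  induction hz using Submodule.span_induction with
  | mem z hz =>
    obtain ⟨n, rfl⟩ := hz
    exact ⟨n + 1, Submodule.subset_span ⟨n, Nat.lt_succ_self n, rfl⟩⟩
  | zero => exact ⟨0, Submodule.zero_mem _⟩
  | add u v _ _ hu hv =>
    obtain ⟨q, hq⟩ := hu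
    obtain ⟨q', hq'⟩ := hv
    exact ⟨max q q', Submodule.add_mem _ (hmono _ _ (le_max_left _ _) hq)
      (hmono _ _ (le_max_right _ _) hq')⟩
  | smul c u _ hu =>
    obtain ⟨q, hq⟩ := hu
    exact ⟨q, Submodule.smul_mem _ _ hq⟩

theorem exists_near_norming (T : A →L[𝕜] StrongDual 𝕜 B) (hT : ∀ a, ‖T a‖ = ‖a‖) (b : ℕ → B)
    (hb : (Submodule.span 𝕜 (Set.range b)).topologicalClosure = ⊤) {a : A} (ha : ‖a‖ = 1) :
    ∃ z ∈ Submodule.span 𝕜 (Set.range b), ‖z‖ ≤ 1 ∧ 1 / 2 < ‖T a z‖ := by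
  by_contra hcon
  push Not at hcon
  have h1 : ∀ z ∈ Submodule.span 𝕜 (Set.range b), ‖T a z‖ ≤ (1 / 2) * ‖z‖ := by
    intro z hz
    rcases eq_or_ne z 0 with rfl | hz0
    · simp
    · have hpos : 0 < ‖z‖ := norm_pos_iff.2 hz0
      have h2 := hcon ((‖z‖⁻¹ : 𝕜) • z) (Submodule.smul_mem _ _ hz) (by
        rw [norm_smul, norm_inv, RCLike.norm_ofReal, abs_norm, inv_mul_cancel₀ hpos.ne'])
      rw [map_smul, norm_smul, norm_inv, RCLike.norm_ofReal, abs_norm] at h2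
      rw [inv_mul_le_iff₀ hpos] at h2
      linarith
  have h2 : ∀ z : B, ‖T a z‖ ≤ (1 / 2) * ‖z‖ := by
    have hcl : IsClosed {z : B | ‖T a z‖ ≤ (1 / 2) * ‖z‖} :=
      isClosed_le ((T a).continuous.norm) (continuous_const.mul continuous_norm)
    have hsub : closure ((Submodule.span 𝕜 (Set.range b) : Submodule 𝕜 B) : Set B) ⊆
        {z : B | ‖T a z‖ ≤ (1 / 2) * ‖z‖} := closure_minimal h1 hcl
    intro z
    have hz : z ∈ (Submodule.span 𝕜 (Set.range b)).topologicalClosure := by rw [hb]; trivial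
    exact hsub hz
  have h3 := (T a).opNorm_le_bound (by norm_num) h2
  rw [hT, ha] at h3
  norm_num at h3

theorem exists_norming (T : A →L[𝕜] StrongDual 𝕜 B) (hT : ∀ a, ‖T a‖ = ‖a‖) (b : ℕ → B)
    (hb : (Submodule.span 𝕜 (Set.range b)).topologicalClosure = ⊤)
    (V : Submodule 𝕜 A) [FiniteDimensional 𝕜 V] :
    ∃ q : ℕ, ∀ q' ≥ q, ∀ a ∈ V, ∃ z ∈ Submodule.span 𝕜 (b '' {n | n < q'}),
      ‖z‖ ≤ 1 ∧ ‖a‖ ≤ 2 * ‖T a z‖ := by
  have : ProperSpace V := FiniteDimensional.proper_rclike 𝕜 V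
  have hmono : ∀ q q' : ℕ, q ≤ q' → Submodule.span 𝕜 (b '' {n | n < q}) ≤
      Submodule.span 𝕜 (b '' {n | n < q'}) := fun q q' h =>
    Submodule.span_mono (Set.image_mono fun n (hn : n < q) => lt_of_lt_of_le hn h)
  let U : ℕ → Set V := fun q =>
    ⋃ z : {z : B // z ∈ Submodule.span 𝕜 (b '' {n | n < q}) ∧ ‖z‖ ≤ 1}, {v : V | 1 / 2 < ‖T v z.1‖}
  have hU : ∀ q, IsOpen (U q) := by
    intro q
    refine isOpen_iUnion fun z => ?_
    refine isOpen_lt continuous_const ?_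
    have : Continuous (fun v : V => T v z.1) := by
      have h1 : Continuous fun v : V => T (v : A) := T.continuous.comp continuous_subtype_val
      exact h1.clm_apply continuous_const
    exact this.norm
  have hUmono : Monotone U := by
    intro q q' hqq v hv
    rw [Set.mem_iUnion] at hv ⊢
    obtain ⟨⟨z, hz1, hz2⟩, hz3⟩ := hv
    exact ⟨⟨z, hmono _ _ hqq hz1, hz2⟩, hz3⟩
  have hcov : Metric.sphere (0 : V) 1 ⊆ ⋃ q, U q := by
    intro v hv
    rw [mem_sphere_zero_iff_norm] at hv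
    obtain ⟨z, hz1, hz2, hz3⟩ := exists_near_norming T hT b hb (a := (v : A)) hv
    obtain ⟨q, hq⟩ := mem_span_lt b hz1
    exact Set.mem_iUnion.2 ⟨q, Set.mem_iUnion.2 ⟨⟨z, hq, hz2⟩, hz3⟩⟩
  obtain ⟨q, hq⟩ := (isCompact_sphere (0 : V) 1).elim_directed_cover U hU hcov
    (directed_of_isDirected_le hUmono)
  refine ⟨q, fun q' hq' a ha => ?_⟩
  rcases eq_or_ne a 0 with rfl | ha0
  · exact ⟨0, Submodule.zero_mem _, by simp, by simp⟩
  · have hpos : 0 < ‖a‖ := norm_pos_iff.2 ha0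
    let v : V := (‖a‖⁻¹ : 𝕜) • ⟨a, ha⟩
    have hv : ‖v‖ = 1 := by
      change ‖(‖a‖⁻¹ : 𝕜) • a‖ = 1
      rw [norm_smul, norm_inv, RCLike.norm_ofReal, abs_norm, inv_mul_cancel₀ hpos.ne']
    have h1 := hq (mem_sphere_zero_iff_norm.2 hv)
    obtain ⟨⟨z, hz1, hz2⟩, hz3⟩ := Set.mem_iUnion.1 h1
    refine ⟨z, hmono _ _ hq' hz1, hz2, ?_⟩
    have h2 : T (v : A) z = (‖a‖⁻¹ : 𝕜) • T a z := by
      change T ((‖a‖⁻¹ : 𝕜) • a) z = _
      rw [map_smul]; rfl
    change 1 / 2 < ‖T (v : A) z‖ at hz3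
    rw [h2, norm_smul, norm_inv, RCLike.norm_ofReal, abs_norm, lt_inv_mul_iff₀ hpos] at hz3
    linarith

end norming

section gap

variable {E : Type*} [NormedAddCommGroup E] [NormedSpace 𝕜 E]

/-- `[p, q)` is a good gap for the biorthogonal system `(x, f)`. -/
def Gap (x : ℕ → E) (f : ℕ → StrongDual 𝕜 E) (p q : ℕ) : Prop :=
  (∀ g ∈ Submodule.span 𝕜 (f '' {n | n < p}), ∃ z ∈ Submodule.span 𝕜 (x '' {n | n < q}),
    ‖z‖ ≤ 1 ∧ ‖g‖ ≤ 2 * ‖g z‖) ∧
  (∀ y ∈ Submodule.span 𝕜 (x '' {n | n < p}), ∃ g ∈ Submodule.span 𝕜 (f '' {n | n < q}),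
    ‖g‖ ≤ 1 ∧ ‖y‖ ≤ 2 * ‖g y‖)

variable (x : ℕ → E) (f : ℕ → StrongDual 𝕜 E)

theorem exists_gap (hx : (Submodule.span 𝕜 (Set.range x)).topologicalClosure = ⊤)
    (hf : (Submodule.span 𝕜 (Set.range f)).topologicalClosure = ⊤) (p : ℕ) :
    ∃ q, p < q ∧ Gap x f p q := by
  have : FiniteDimensional 𝕜 (Submodule.span 𝕜 (f '' {n | n < p})) :=
    FiniteDimensional.span_of_finite 𝕜 ((Set.finite_lt_nat p).image f)
  have : FiniteDimensional 𝕜 (Submodule.span 𝕜 (x '' {n | n < p})) :=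
    FiniteDimensional.span_of_finite 𝕜 ((Set.finite_lt_nat p).image x)
  obtain ⟨q₁, h1⟩ := exists_norming (ContinuousLinearMap.id 𝕜 (StrongDual 𝕜 E)) (fun a => rfl) x hx
    (Submodule.span 𝕜 (f '' {n | n < p}))
  obtain ⟨q₂, h2⟩ := exists_norming (NormedSpace.inclusionInDoubleDual 𝕜 E)
    (fun a => (NormedSpace.inclusionInDoubleDualLi 𝕜 (E := E)).norm_map a) f hf
    (Submodule.span 𝕜 (x '' {n | n < p}))
  refine ⟨max (p + 1) (max q₁ q₂), by omega, ?_, ?_⟩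
  · exact h1 _ (by omega)
  · exact h2 _ (by omega)

variable {x f} (hbi : ∀ i j, f i (x j) = if i = j then 1 else 0)
include hbi

theorem expand_x {q : ℕ} {z : E} (hz : z ∈ Submodule.span 𝕜 (x '' {n | n < q})) :
    z = ∑ n ∈ range q, f n z • x n := by
  induction hz using Submodule.span_induction with
  | mem z hz =>
    obtain ⟨m, hm, rfl⟩ := hz
    rw [Finset.sum_eq_single m]
    · rw [hbi, if_pos rfl, one_smul]
    · intro n _ hn
      rw [hbi, if_neg hn, zero_smul]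
    · intro h
      exact absurd (Finset.mem_range.2 hm) h
  | zero => simp
  | add u v _ _ hu hv =>
    simp only [map_add, add_smul, Finset.sum_add_distrib]
    rw [← hu, ← hv]
  | smul c u _ hu =>
    simp only [map_smul, smul_eq_mul, mul_smul]
    rw [← Finset.smul_sum, ← hu]

theorem expand_f {q : ℕ} {g : StrongDual 𝕜 E} (hg : g ∈ Submodule.span 𝕜 (f '' {n | n < q})) :
    g = ∑ n ∈ range q, g (x n) • f n := by
  induction hg using Submodule.span_induction with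
  | mem z hz =>
    obtain ⟨m, hm, rfl⟩ := hz
    rw [Finset.sum_eq_single m]
    · rw [hbi, if_pos rfl]; exact (one_smul 𝕜 (f m)).symm
    · intro n _ hn
      rw [hbi, if_neg (fun h => hn h.symm)]; exact zero_smul 𝕜 (f n)
    · intro h
      exact absurd (Finset.mem_range.2 hm) h
  | zero =>
    symm
    apply Finset.sum_eq_zero
    intro n _
    exact zero_smul 𝕜 (f n)
  | add u v _ _ hu hv =>
    have : ∀ n, (u + v) (x n) • f n = u (x n) • f n + v (x n) • f n := by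
      intro n
      exact add_smul (u (x n)) (v (x n)) (f n)
    simp only [this, Finset.sum_add_distrib]
    rw [← hu, ← hv]
  | smul c u _ hu =>
    have : ∀ n, (c • u) (x n) • f n = c • (u (x n) • f n) := by
      intro n
      exact mul_smul c (u (x n)) (f n)
    simp only [this]
    rw [← Finset.smul_sum, ← hu]

theorem norm_trunc_f {p q : ℕ} (hpq : p ≤ q) (hgap : Gap x f p q) (h : StrongDual 𝕜 E)
    (h0 : ∀ n, p ≤ n → n < q → h (x n) = 0) :
    ‖∑ n ∈ range p, h (x n) • f n‖ ≤ 2 * ‖h‖ := by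
  set G := ∑ n ∈ range p, h (x n) • f n with hG
  have hGmem : G ∈ Submodule.span 𝕜 (f '' {n | n < p}) :=
    Submodule.sum_mem _ fun n hn => Submodule.smul_mem _ _
      (Submodule.subset_span ⟨n, Finset.mem_range.1 hn, rfl⟩)
  obtain ⟨z, hz1, hz2, hz3⟩ := hgap.1 G hGmem
  have h1 : G z = h z := by
    have h2 : h z = ∑ n ∈ range q, f n z * h (x n) := by
      conv_lhs => rw [expand_x hbi hz1]
      rw [map_sum]
      simp only [map_smul, smul_eq_mul]
    have h3 : G z = ∑ n ∈ range p, h (x n) * f n z := by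
      rw [hG, _root_.sum_apply]
      rfl
    rw [h2, h3]
    rw [← Finset.sum_subset (Finset.range_mono hpq)]
    · exact Finset.sum_congr rfl fun n _ => mul_comm _ _
    · intro n hn1 hn2
      rw [h0 n (by simpa using hn2) (by simpa using hn1), mul_zero]
  rw [h1] at hz3
  have h4 : ‖h z‖ ≤ ‖h‖ * ‖z‖ := h.le_opNorm z
  have h5 : ‖h‖ * ‖z‖ ≤ ‖h‖ * 1 := mul_le_mul_of_nonneg_left hz2 (norm_nonneg _)
  linarith

theorem norm_trunc_x {p q : ℕ} (hpq : p ≤ q) (hgap : Gap x f p q)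
    (φ : StrongDual 𝕜 (StrongDual 𝕜 E))
    (h0 : ∀ n, p ≤ n → n < q → φ (f n) = 0) :
    ‖∑ n ∈ range p, φ (f n) • x n‖ ≤ 2 * ‖φ‖ := by
  set Y := ∑ n ∈ range p, φ (f n) • x n with hY
  have hYmem : Y ∈ Submodule.span 𝕜 (x '' {n | n < p}) :=
    Submodule.sum_mem _ fun n hn => Submodule.smul_mem _ _
      (Submodule.subset_span ⟨n, Finset.mem_range.1 hn, rfl⟩)
  obtain ⟨g, hg1, hg2, hg3⟩ := hgap.2 Y hYmem
  have h1 : g Y = φ g := by
    have h2 : φ g = ∑ n ∈ range q, g (x n) * φ (f n) := by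
      conv_lhs => rw [expand_f hbi hg1]
      rw [map_sum]
      simp only [map_smul, smul_eq_mul]
    have h3 : g Y = ∑ n ∈ range p, φ (f n) * g (x n) := by
      rw [hY, map_sum]
      simp only [map_smul, smul_eq_mul]
    rw [h2, h3]
    rw [← Finset.sum_subset (Finset.range_mono hpq)]
    · exact Finset.sum_congr rfl fun n _ => mul_comm _ _
    · intro n hn1 hn2
      rw [h0 n (by simpa using hn2) (by simpa using hn1), mul_zero]
  rw [h1] at hg3
  have h4 : ‖φ g‖ ≤ ‖φ‖ * ‖g‖ := φ.le_opNorm g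
  have h5 : ‖φ‖ * ‖g‖ ≤ ‖φ‖ * 1 := mul_le_mul_of_nonneg_left hg2 (norm_nonneg φ)
  linarith

end gap

end Pool.Agent.H787R2.StrongMB
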