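import Pool.Agent.H787R2.StrongMB2

set_option autoImplicit false
set_option linter.unnecessarySimpa false

open Filter Topology Finset

namespace Pool.Agent.H787R2.StrongMB

variable {𝕜 : Type*} [RCLike 𝕜]

section layout

variable {E : Type*} [NormedAddCommGroup E] [NormedSpace 𝕜 E]

/-- The block structure. Block `k` is `[r k, r (k+1))`, its core is `[r k, s k)`, and its tail
intervals are `[t k i, t k (i+1))`, `i < s k - r k`. -/
structure Layout (x : ℕ → E) (f : ℕ → StrongDual 𝕜 E) (r s : ℕ → ℕ) (t : ℕ → ℕ → ℕ) : Prop where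
  r0 : r 0 = 0
  rs : ∀ k, r k < s k
  t0 : ∀ k, t k 0 = s k
  tlt : ∀ k i, t k i < t k (i + 1)
  tend : ∀ k, t k (s k - r k) = r (k + 1)
  gap0 : ∀ k, Gap x f (r k) (s k)
  gap1 : ∀ k i, Gap x f (t k i) (t k (i + 1))

theorem exists_layout (x : ℕ → E) (f : ℕ → StrongDual 𝕜 E)
    (hx : (Submodule.span 𝕜 (Set.range x)).topologicalClosure = ⊤)
    (hf : (Submodule.span 𝕜 (Set.range f)).topologicalClosure = ⊤) :
    ∃ r s t, Layout x f r s t := by
  choose q hq1 hq2 using exists_gap x f hx hf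
  let c : ℕ → ℕ := fun j => Nat.rec 0 (fun _ p => q p) j
  have hc : ∀ j, c (j + 1) = q (c j) := fun j => rfl
  let J : ℕ → ℕ := fun k => Nat.rec 0 (fun _ j => j + 1 + (c (j + 1) - c j)) k
  have hJ : ∀ k, J (k + 1) = J k + 1 + (c (J k + 1) - c (J k)) := fun k => rfl
  refine ⟨fun k => c (J k), fun k => c (J k + 1), fun k i => c (J k + 1 + i), ?_⟩
  constructor
  · rfl
  · intro k
    change c (J k) < c (J k + 1)
    rw [hc]; exact hq1 _
  · intro k; rfl
  · intro k i
    change c (J k + 1 + i) < c (J k + 1 + (i + 1))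
    rw [← add_assoc, hc]; exact hq1 _
  · intro k
    change c (J k + 1 + (c (J k + 1) - c (J k))) = c (J (k + 1))
    rw [hJ]
  · intro k
    change Gap x f (c (J k)) (c (J k + 1))
    rw [hc]; exact hq2 _
  · intro k i
    change Gap x f (c (J k + 1 + i)) (c (J k + 1 + (i + 1)))
    rw [← add_assoc, hc]; exact hq2 _

/-- The tail of `m`. -/
noncomputable def TT (r s : ℕ → ℕ) (t : ℕ → ℕ → ℕ) (m : ℕ) : Finset ℕ := by
  classical exact
  if h : ∃ k, r k ≤ m ∧ m < s k then Ico (t h.choose (m - r h.choose)) (t h.choose (m - r h.choose + 1))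
  else ∅

variable {x : ℕ → E} {f : ℕ → StrongDual 𝕜 E} {r s : ℕ → ℕ} {t : ℕ → ℕ → ℕ} (L : Layout x f r s t)
include L

theorem Layout.tmono (k : ℕ) {i j : ℕ} (h : i ≤ j) : t k i ≤ t k j :=
  (strictMono_nat_of_lt_succ (L.tlt k)).monotone h

theorem Layout.s_le_t (k i : ℕ) : s k ≤ t k i := by
  rw [← L.t0 k]; exact L.tmono k (Nat.zero_le i)

theorem Layout.t_le_r (k : ℕ) {i : ℕ} (h : i ≤ s k - r k) : t k i ≤ r (k + 1) := by
  rw [← L.tend k]; exact L.tmono k h

theorem Layout.s_le_r (k : ℕ) : s k ≤ r (k + 1) := by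
  rw [← L.tend k]; exact L.s_le_t k _

theorem Layout.r_lt (k : ℕ) : r k < r (k + 1) := (L.rs k).trans_le (L.s_le_r k)

theorem Layout.r_strictMono : StrictMono r := strictMono_nat_of_lt_succ L.r_lt

theorem Layout.block_unique {k k' m : ℕ} (h1 : r k ≤ m) (h2 : m < r (k + 1)) (h3 : r k' ≤ m)
    (h4 : m < r (k' + 1)) : k = k' := by
  rcases lt_trichotomy k k' with h | h | h
  · have := L.r_strictMono.monotone (Nat.succ_le_of_lt h)
    simp only [Nat.succ_eq_add_one] at this
    omega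
  · exact h
  · have := L.r_strictMono.monotone (Nat.succ_le_of_lt h)
    simp only [Nat.succ_eq_add_one] at this
    omega

theorem Layout.exists_block (m : ℕ) : ∃ k, r k ≤ m ∧ m < r (k + 1) := by
  have hex : ∃ k, m < r k := ⟨m + 1, lt_of_lt_of_le (Nat.lt_succ_self m) (L.r_strictMono.id_le _)⟩
  classical
  obtain ⟨k, hk⟩ : ∃ k, Nat.find hex = k + 1 := by
    refine Nat.exists_eq_succ_of_ne_zero fun h0 => ?_
    have := Nat.find_spec hex
    rw [h0, L.r0] at this
    omega
  refine ⟨k, ?_, ?_⟩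
  · have := Nat.find_min hex (m := k) (by omega)
    omega
  · have := Nat.find_spec hex
    rwa [hk] at this

theorem Layout.TT_core {k m : ℕ} (h1 : r k ≤ m) (h2 : m < s k) :
    TT r s t m = Ico (t k (m - r k)) (t k (m - r k + 1)) := by
  have h : ∃ k, r k ≤ m ∧ m < s k := ⟨k, h1, h2⟩
  have h3 : h.choose = k :=
    L.block_unique h.choose_spec.1 (h.choose_spec.2.trans_le (L.s_le_r _)) h1
      (h2.trans_le (L.s_le_r _))
  unfold TT
  rw [dif_pos h, h3]

theorem Layout.TT_tail {k m : ℕ} (h1 : s k ≤ m) (h2 : m < r (k + 1)) : TT r s t m = ∅ := by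
  have h : ¬ ∃ k, r k ≤ m ∧ m < s k := by
    rintro ⟨k', h3, h4⟩
    have h5 : k' = k := L.block_unique h3 (h4.trans_le (L.s_le_r _)) ((L.rs k).le.trans h1) h2
    subst h5
    omega
  unfold TT
  rw [dif_neg h]

theorem Layout.mem_TT {n m : ℕ} (h : n ∈ TT r s t m) :
    ∃ k, r k ≤ m ∧ m < s k ∧ t k (m - r k) ≤ n ∧ n < t k (m - r k + 1) := by
  obtain ⟨k, h1, h2⟩ := L.exists_block m
  rcases lt_or_ge m (s k) with h3 | h3
  · rw [L.TT_core h1 h3, Finset.mem_Ico] at h
    exact ⟨k, h1, h3, h.1, h.2⟩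
  · rw [L.TT_tail h3 h2] at h
    simp at h

theorem Layout.mem_TT' {n m : ℕ} (h : n ∈ TT r s t m) :
    ∃ k, r k ≤ m ∧ m < s k ∧ t k (m - r k) ≤ n ∧ n < t k (m - r k + 1) ∧ s k ≤ n ∧ n < r (k + 1) := by
  obtain ⟨k, h1, h2, h3, h4⟩ := L.mem_TT h
  exact ⟨k, h1, h2, h3, h4, (L.s_le_t _ _).trans h3, h4.trans_le (L.t_le_r k (by omega))⟩

theorem Layout.T1 {n m : ℕ} (h : n ∈ TT r s t m) : m < n := by
  obtain ⟨k, h1, h2, h3, h4, h5, h6⟩ := L.mem_TT' h
  omega

theorem Layout.T2 {n m : ℕ} (h : n ∈ TT r s t m) : TT r s t n = ∅ := by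
  obtain ⟨k, h1, h2, h3, h4, h5, h6⟩ := L.mem_TT' h
  exact L.TT_tail h5 h6

theorem Layout.T3 {n m m' : ℕ} (h : n ∈ TT r s t m) (h' : n ∈ TT r s t m') : m = m' := by
  obtain ⟨k, h1, h2, h3, h4, h5, h6⟩ := L.mem_TT' h
  obtain ⟨k', h1', h2', h3', h4', h5', h6'⟩ := L.mem_TT' h'
  have hk : k = k' := L.block_unique ((L.rs k).le.trans h5) h6 ((L.rs k').le.trans h5') h6'
  subst hk
  rcases lt_trichotomy (m - r k) (m' - r k) with h7 | h7 | h7
  · have := L.tmono k (Nat.succ_le_of_lt h7)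
    simp only [Nat.succ_eq_add_one] at this
    omega
  · omega
  · have := L.tmono k (Nat.succ_le_of_lt h7)
    simp only [Nat.succ_eq_add_one] at this
    omega

end layout

section newsys

variable {E : Type*} [NormedAddCommGroup E] [NormedSpace 𝕜 E]

/-- new vectors -/
def nx (T : ℕ → Finset ℕ) (a : ℕ → 𝕜) (x : ℕ → E) (m : ℕ) : E := x m - ∑ n ∈ T m, a m • x n

/-- new functionals -/
def nf (T : ℕ → Finset ℕ) (a : ℕ → 𝕜) (f : ℕ → StrongDual 𝕜 E) (n : ℕ) : StrongDual 𝕜 E :=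
  f n + ∑ m ∈ range n, if n ∈ T m then a m • f m else 0

variable {T : ℕ → Finset ℕ} (a : ℕ → 𝕜) (x : ℕ → E) (f : ℕ → StrongDual 𝕜 E)
  (T1 : ∀ n m, n ∈ T m → m < n) (T2 : ∀ n m, n ∈ T m → T n = ∅)
  (T3 : ∀ n m m', n ∈ T m → n ∈ T m' → m = m')

theorem nf_apply (n : ℕ) (y : E) :
    nf T a f n y = f n y + ∑ m ∈ range n, if n ∈ T m then a m * f m y else 0 := by
  unfold nf
  change f n y + (∑ m ∈ range n, if n ∈ T m then a m • f m else 0) y = _
  rw [_root_.sum_apply]
  congr 1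
  apply Finset.sum_congr rfl
  intro m _
  split_ifs
  · rfl
  · rfl

theorem nx_of_empty {m : ℕ} (h : T m = ∅) : nx T a x m = x m := by
  unfold nx
  rw [h, Finset.sum_empty, sub_zero]

include T2 in
theorem nf_core {m n : ℕ} (h : n ∈ T m) : nf T a f m = f m := by
  unfold nf
  rw [Finset.sum_eq_zero, add_zero]
  intro m' _
  rw [if_neg]
  intro h'
  rw [T2 _ _ h'] at h
  simp at h

theorem nf_core' {m : ℕ} (h : ∀ m', m ∉ T m') : nf T a f m = f m := by
  unfold nf
  rw [Finset.sum_eq_zero, add_zero]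
  intro m' _
  rw [if_neg (h m')]

include T1 T3 in
theorem nf_tail {m n : ℕ} (h : n ∈ T m) : nf T a f n = f n + a m • f m := by
  unfold nf
  congr 1
  rw [Finset.sum_eq_single m]
  · rw [if_pos h]
  · intro m' _ hne
    rw [if_neg]
    intro h'
    exact hne (T3 _ _ _ h' h)
  · intro hn
    exact absurd (Finset.mem_range.2 (T1 _ _ h)) hn

include T1 T2 in
theorem new_biorth (hbi : ∀ i j, f i (x j) = if i = j then 1 else 0) (i j : ℕ) :
    nf T a f i (nx T a x j) = if i = j then 1 else 0 := by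
  have hf : ∀ i, f i (nx T a x j) = (if i = j then 1 else 0) - (if i ∈ T j then a j else 0) := by
    intro i
    unfold nx
    rw [map_sub, map_sum, hbi]
    congr 1
    simp only [map_smul, hbi, smul_eq_mul, mul_ite, mul_one, mul_zero]
    rw [Finset.sum_ite_eq]
  rw [nf_apply, hf]
  have h1 : (∑ m ∈ range i, if i ∈ T m then a m * f m (nx T a x j) else 0) =
      ∑ m ∈ range i, if m = j then (if i ∈ T j then a j else 0) else 0 := by
    apply Finset.sum_congr rfl
    intro m _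
    by_cases h : i ∈ T m
    · rw [if_pos h, hf]
      have h2 : m ∉ T j := by
        intro h3
        rw [T2 _ _ h3] at h
        simp at h
      rw [if_neg h2, sub_zero]
      by_cases h4 : m = j
      · subst h4
        rw [if_pos rfl, if_pos rfl, if_pos h, mul_one]
      · rw [if_neg h4, if_neg h4, mul_zero]
    · rw [if_neg h]
      by_cases h4 : m = j
      · subst h4
        rw [if_pos rfl, if_neg h]
      · rw [if_neg h4]
  rw [h1, Finset.sum_ite_eq']
  by_cases h5 : i ∈ T j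
  · rw [if_pos h5, if_pos (Finset.mem_range.2 (T1 _ _ h5)), sub_add_cancel]
  · rw [if_neg h5]
    simp

include T2 in
theorem x_mem_span (m : ℕ) : x m ∈ Submodule.span 𝕜 (Set.range (nx T a x)) := by
  have h1 : x m = nx T a x m + ∑ n ∈ T m, a m • nx T a x n := by
    have h0 : ∀ n ∈ T m, a m • nx T a x n = a m • x n := by
      intro n hn
      rw [nx_of_empty a x (T2 _ _ hn)]
    rw [Finset.sum_congr rfl h0, nx, sub_add_cancel]
  rw [h1]
  refine Submodule.add_mem _ (Submodule.subset_span ⟨m, rfl⟩) (Submodule.sum_mem _ fun n _ =>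
    Submodule.smul_mem _ _ (Submodule.subset_span ⟨n, rfl⟩))

include T2 in
theorem f_mem_span (n : ℕ) : f n ∈ Submodule.span 𝕜 (Set.range (nf T a f)) := by
  have h1 : f n = nf T a f n - ∑ m ∈ range n, if n ∈ T m then a m • nf T a f m else 0 := by
    have h2 : (∑ m ∈ range n, if n ∈ T m then a m • nf T a f m else 0) =
        ∑ m ∈ range n, if n ∈ T m then a m • f m else 0 := by
      apply Finset.sum_congr rfl
      intro m _
      by_cases h : n ∈ T m
      · rw [if_pos h, if_pos h, nf_core a f T2 h]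
      · rw [if_neg h, if_neg h]
    rw [h2]
    conv_rhs => rw [nf]
    abel
  rw [h1]
  refine Submodule.sub_mem _ (Submodule.subset_span ⟨n, rfl⟩) (Submodule.sum_mem _ fun m _ => ?_)
  split_ifs
  · exact Submodule.smul_mem _ _ (Submodule.subset_span ⟨m, rfl⟩)
  · exact Submodule.zero_mem _

include T1 T2 T3 in
/-- the group identity -/
theorem group_sum (h : StrongDual 𝕜 E) (φ : StrongDual 𝕜 (StrongDual 𝕜 E))
    (H : ∀ n, h (nx T a x n) * φ (nf T a f n) = 0) {m : ℕ} (hm : ∀ m', m ∉ T m') :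
    h (x m) * φ (f m) + ∑ n ∈ T m, h (x n) * φ (f n) = 0 := by
  have h1 := H m
  rw [nf_core' a f hm, nx, map_sub, map_sum] at h1
  simp only [map_smul, smul_eq_mul] at h1
  have h2 : ∀ n ∈ T m, h (x n) * φ (f n) = - (a m * h (x n) * φ (f m)) := by
    intro n hn
    have h3 := H n
    rw [nx_of_empty a x (T2 _ _ hn), nf_tail a f T1 T3 hn, map_add, map_smul, smul_eq_mul] at h3
    linear_combination h3
  rw [Finset.sum_congr rfl h2, Finset.sum_neg_distrib, ← Finset.sum_mul]
  linear_combination h1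

end newsys

end Pool.Agent.H787R2.StrongMB
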