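import Pool.Agent.H787R2.StrongMB3

set_option autoImplicit false
set_option linter.unnecessarySimpa false

open Filter Topology Finset

namespace Pool.Agent.H787R2.StrongMB

variable {𝕜 : Type*} [RCLike 𝕜]

section key

variable {E : Type*} [NormedAddCommGroup E] [NormedSpace 𝕜 E]

theorem half_sum (r s : ℕ) : ∑ m ∈ Ico r s, (1 / 2 : ℝ) ^ m ≤ 2 * (1 / 2) ^ r := by
  have h : ∀ d : ℕ, ∑ m ∈ Ico r (r + d), (1 / 2 : ℝ) ^ m = 2 * (1 / 2) ^ r - 2 * (1 / 2) ^ (r + d) := by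
    intro d
    induction d with
    | zero => simp
    | succ d ih =>
      rw [← add_assoc, Finset.sum_Ico_succ_top (by omega), ih]
      ring
  rcases le_or_gt r s with h1 | h1
  · obtain ⟨d, rfl⟩ := Nat.exists_eq_add_of_le h1
    rw [h]
    have : (0 : ℝ) < (1 / 2) ^ (r + d) := by positivity
    linarith
  · rw [Finset.Ico_eq_empty (by omega), Finset.sum_empty]
    positivity

theorem norm_sub_sum_le {W : Type*} [NormedAddCommGroup W] (w : W) (S : Finset ℕ) (u : ℕ → W)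
    (c : ℕ → ℝ) (hc : ∀ m ∈ S, ‖u m‖ ≤ c m) : ‖w - ∑ m ∈ S, u m‖ ≤ ‖w‖ + ∑ m ∈ S, c m :=
  (norm_sub_le _ _).trans (by have := norm_sum_le_of_le S hc; linarith)

variable {x : ℕ → E} {f : ℕ → StrongDual 𝕜 E} {r s : ℕ → ℕ} {t : ℕ → ℕ → ℕ} (L : Layout x f r s t)

/-- the weights -/
noncomputable def wt (x : ℕ → E) (f : ℕ → StrongDual 𝕜 E) (T : ℕ → Finset ℕ) (m : ℕ) : ℝ :=
  2 ^ m * (1 + ‖x m‖) * (1 + ∑ n ∈ T m, ‖f n‖)

theorem wt_pos (T : ℕ → Finset ℕ) (m : ℕ) : 0 < wt x f T m := by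
  unfold wt
  have h1 : 0 ≤ ∑ n ∈ T m, ‖f n‖ := Finset.sum_nonneg fun _ _ => norm_nonneg _
  have h2 := norm_nonneg (x m)
  positivity

variable {h : StrongDual 𝕜 E} {φ : StrongDual 𝕜 (StrongDual 𝕜 E)}
  (H : ∀ n, h (nx (TT r s t) (fun m => ((wt x f (TT r s t) m : ℝ) : 𝕜)) x n) *
    φ (nf (TT r s t) (fun m => ((wt x f (TT r s t) m : ℝ) : 𝕜)) f n) = 0)

include L H

theorem small {m n : ℕ} (hn : n ∈ TT r s t m) (hne : h (x n) ≠ 0) :
    ‖φ (f m)‖ * (1 + ‖x m‖) ≤ ‖φ‖ * (1 / 2) ^ m := by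
  have h1 := H n
  rw [nx_of_empty _ x (L.T2 hn)] at h1
  have h2 := (mul_eq_zero.1 h1).resolve_left hne
  rw [nf_tail _ f (fun _ _ => L.T1) (fun _ _ _ => L.T3) hn, map_add, map_smul, smul_eq_mul] at h2
  have h3 : ‖((wt x f (TT r s t) m : ℝ) : 𝕜) * φ (f m)‖ = ‖φ (f n)‖ := by
    rw [← norm_neg (φ (f n))]
    congr 1
    linear_combination h2
  rw [norm_mul, RCLike.norm_ofReal, abs_of_pos (wt_pos _ _)] at h3
  have h4 : ‖φ (f n)‖ ≤ ‖φ‖ * (1 + ∑ n ∈ TT r s t m, ‖f n‖) := by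
    have h5 : ‖f n‖ ≤ ∑ n ∈ TT r s t m, ‖f n‖ :=
      Finset.single_le_sum (f := fun n => ‖f n‖) (fun _ _ => norm_nonneg _) hn
    calc ‖φ (f n)‖ ≤ ‖φ‖ * ‖f n‖ := φ.le_opNorm _
      _ ≤ ‖φ‖ * (1 + ∑ n ∈ TT r s t m, ‖f n‖) :=
        mul_le_mul_of_nonneg_left (by linarith) (norm_nonneg φ)
  have h6 : (0 : ℝ) < 1 + ∑ n ∈ TT r s t m, ‖f n‖ := by
    have : 0 ≤ ∑ n ∈ TT r s t m, ‖f n‖ := Finset.sum_nonneg fun _ _ => norm_nonneg _
    linarith
  rw [← h3, wt] at h4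
  have h7 : (2 ^ m * (1 + ‖x m‖) * ‖φ (f m)‖) * (1 + ∑ n ∈ TT r s t m, ‖f n‖) ≤
      ‖φ‖ * (1 + ∑ n ∈ TT r s t m, ‖f n‖) := by
    calc _ = 2 ^ m * (1 + ‖x m‖) * (1 + ∑ n ∈ TT r s t m, ‖f n‖) * ‖φ (f m)‖ := by ring
      _ ≤ _ := h4
  have h8 := le_of_mul_le_mul_right h7 h6
  rw [one_div, inv_pow, ← div_eq_mul_inv, le_div_iff₀ (by positivity)]
  linarith

theorem group_id (k i : ℕ) (hi : i < s k - r k) :
    h (x (r k + i)) * φ (f (r k + i)) + ∑ n ∈ Ico (t k i) (t k (i + 1)), h (x n) * φ (f n) = 0 := by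
  have h1 : r k + i < s k := by omega
  have h2 := group_sum _ x f (fun _ _ => L.T1) (fun _ _ => L.T2) (fun _ _ _ => L.T3) h φ H
    (m := r k + i) (by
      intro m' hm'
      obtain ⟨k', h3, h4, h5, h6, h7, h8⟩ := L.mem_TT' hm'
      have h9 : k = k' := L.block_unique (by omega) (h1.trans_le (L.s_le_r k)) ((L.rs k').le.trans h7) h8
      subst h9
      omega)
  rw [L.TT_core (by omega) h1] at h2
  rwa [show r k + i - r k = i by omega] at h2

theorem sum_t {k : ℕ} (h0 : ∑ n ∈ range (r k), h (x n) * φ (f n) = 0) (i : ℕ) (hi : i ≤ s k - r k) :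
    ∑ n ∈ range (t k i), h (x n) * φ (f n) = ∑ n ∈ Ico (r k + i) (s k), h (x n) * φ (f n) := by
  induction i with
  | zero =>
    rw [L.t0, add_zero, Finset.range_eq_Ico, ← Finset.sum_Ico_consecutive _ (Nat.zero_le _) (L.rs k).le,
      ← Finset.range_eq_Ico, h0, zero_add]
  | succ i ih =>
    have h1 := ih (by omega)
    have h2 := group_id L H k i (by omega)
    rw [Finset.range_eq_Ico, ← Finset.sum_Ico_consecutive _ (Nat.zero_le _) (L.tlt k i).le,
      ← Finset.range_eq_Ico, h1, Finset.sum_eq_sum_Ico_succ_bot (by omega)]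
    rw [add_assoc (r k) i 1]
    linear_combination h2

theorem sum_r (k : ℕ) : ∑ n ∈ range (r k), h (x n) * φ (f n) = 0 := by
  induction k with
  | zero => rw [L.r0]; simp
  | succ k ih =>
    have h1 := sum_t L H ih (s k - r k) le_rfl
    rw [L.tend] at h1
    rw [h1, Finset.Ico_eq_empty, Finset.sum_empty]
    have := L.rs k
    omega

variable (hbi : ∀ i j, f i (x j) = if i = j then 1 else 0)
include hbi

omit L H in
theorem vanish_of_mem {q : ℕ} {g : StrongDual 𝕜 E} (hg : g ∈ Submodule.span 𝕜 (f '' {n | n < q}))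
    {n : ℕ} (hn : q ≤ n) : g (x n) = 0 := by
  induction hg using Submodule.span_induction with
  | mem z hz =>
    obtain ⟨m, hm, rfl⟩ := hz
    have hm' : m < q := hm
    rw [hbi, if_neg (by omega)]
  | zero => rfl
  | add u v _ _ hu hv => change u (x n) + v (x n) = 0; rw [hu, hv, add_zero]
  | smul c u _ hu => change c • u (x n) = 0; rw [hu, smul_zero]

theorem key_A {k : ℕ} (hA : ∀ m, r k ≤ m → m < s k → ∃ n ∈ TT r s t m, h (x n) ≠ 0)
    {g : StrongDual 𝕜 E} (hg : g ∈ Submodule.span 𝕜 (f '' {n | n < r k})) :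
    ‖φ h‖ ≤ 7 * ‖φ‖ * ‖h - g‖ := by
  let ι := NormedSpace.inclusionInDoubleDual 𝕜 E
  have hι : ∀ y : E, ‖ι y‖ = ‖y‖ := fun y => (NormedSpace.inclusionInDoubleDualLi 𝕜 (E := E)).norm_map y
  let ψ : StrongDual 𝕜 (StrongDual 𝕜 E) := φ - ∑ m ∈ Ico (r k) (s k), φ (f m) • ι (x m)
  have hψf : ∀ n, ψ (f n) = if n ∈ Ico (r k) (s k) then 0 else φ (f n) := by
    intro n
    change φ (f n) - (∑ m ∈ Ico (r k) (s k), φ (f m) • ι (x m)) (f n) = _
    have h1 : (∑ m ∈ Ico (r k) (s k), φ (f m) • ι (x m)) (f n) =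
        ∑ m ∈ Ico (r k) (s k), φ (f m) * f n (x m) := by
      rw [_root_.sum_apply]
      rfl
    rw [h1]
    simp only [hbi, mul_ite, mul_one, mul_zero]
    rw [Finset.sum_ite_eq]
    split_ifs
    · rw [sub_self]
    · rw [sub_zero]
  have hψn : ‖ψ‖ ≤ 3 * ‖φ‖ := by
    have h1 : ‖ψ‖ ≤ ‖φ‖ + ∑ m ∈ Ico (r k) (s k), ‖φ‖ * (1 / 2) ^ m := by
      refine norm_sub_sum_le (W := StrongDual 𝕜 (StrongDual 𝕜 E)) φ _ _ _ ?_
      intro m hm
      rw [Finset.mem_Ico] at hm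
      obtain ⟨n, hn1, hn2⟩ := hA m hm.1 hm.2
      have h2 := small L H hn1 hn2
      have h4 : φ (f m) • ι (x m) = ι (φ (f m) • x m) := (map_smul ι _ _).symm
      rw [h4, hι, norm_smul]
      have h3 : ‖φ (f m)‖ * ‖x m‖ ≤ ‖φ (f m)‖ * (1 + ‖x m‖) :=
        mul_le_mul_of_nonneg_left (by linarith) (norm_nonneg _)
      exact h3.trans h2
    rw [← Finset.mul_sum] at h1
    have h4 : ∑ m ∈ Ico (r k) (s k), (1 / 2 : ℝ) ^ m ≤ 2 := by
      have h5 := half_sum (r k) (s k)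
      have h6 : (1 / 2 : ℝ) ^ (r k) ≤ 1 := pow_le_one₀ (by norm_num) (by norm_num)
      linarith
    have h7 : ‖φ‖ * ∑ m ∈ Ico (r k) (s k), (1 / 2 : ℝ) ^ m ≤ ‖φ‖ * 2 :=
      mul_le_mul_of_nonneg_left h4 (norm_nonneg φ)
    linarith
  have hy := norm_trunc_x hbi (L.rs k).le (L.gap0 k) ψ (by
    intro n hn1 hn2
    rw [hψf, if_pos (Finset.mem_Ico.2 ⟨hn1, hn2⟩)])
  have hyeq : ∑ n ∈ range (r k), ψ (f n) • x n = ∑ n ∈ range (r k), φ (f n) • x n := by
    apply Finset.sum_congr rfl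
    intro n hn
    rw [Finset.mem_range] at hn
    rw [hψf, if_neg (by rw [Finset.mem_Ico]; omega)]
  rw [hyeq] at hy
  set y := ∑ n ∈ range (r k), φ (f n) • x n with hydef
  have h1 : h y = 0 := by
    rw [hydef, map_sum]
    simp only [map_smul, smul_eq_mul]
    rw [← sum_r L H k]
    exact Finset.sum_congr rfl fun n _ => mul_comm _ _
  have h2 : g y = φ g := by
    conv_rhs => rw [expand_f hbi hg]
    rw [hydef, map_sum, map_sum]
    simp only [map_smul, smul_eq_mul]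
    exact Finset.sum_congr rfl fun n _ => mul_comm _ _
  have h3 : φ h = φ (h - g) - (h - g) y := by
    change φ h = φ (h - g) - (h y - g y)
    rw [map_sub, h1, h2]
    ring
  have h4 : ‖φ (h - g)‖ ≤ ‖φ‖ * ‖h - g‖ := φ.le_opNorm _
  have h5 : ‖(h - g) y‖ ≤ ‖h - g‖ * ‖y‖ := (h - g).le_opNorm _
  have h6 : ‖h - g‖ * ‖y‖ ≤ ‖h - g‖ * (6 * ‖φ‖) :=
    mul_le_mul_of_nonneg_left (by linarith) (norm_nonneg _)
  have h7 : ‖φ (h - g) - (h - g) y‖ ≤ ‖φ (h - g)‖ + ‖(h - g) y‖ := norm_sub_le _ _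
  rw [h3]
  nlinarith

theorem key_B {k m : ℕ} (hm1 : r k ≤ m) (hm2 : m < s k)
    (hB1 : ∀ n ∈ TT r s t m, h (x n) = 0)
    (hB2 : ∀ m', m < m' → m' < s k → ∃ n ∈ TT r s t m', h (x n) ≠ 0)
    {g : StrongDual 𝕜 E} (hg : g ∈ Submodule.span 𝕜 (f '' {n | n < r k})) :
    ‖φ h‖ ≤ 3 * ‖φ‖ * ‖h - g‖ + 2 * (1 / 2) ^ (r k) * (‖h‖ * ‖φ‖) := by
  obtain ⟨i, rfl⟩ := Nat.exists_eq_add_of_le hm1
  have hi : i < s k - r k := by omega
  rw [L.TT_core hm1 hm2, show r k + i - r k = i by omega] at hB1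
  have h1 := norm_trunc_f hbi (L.tlt k i).le (L.gap1 k i) (h - g) (by
    intro n hn1 hn2
    change h (x n) - g (x n) = 0
    rw [hB1 n (Finset.mem_Ico.2 ⟨hn1, hn2⟩), vanish_of_mem hbi hg, sub_zero]
    have := L.s_le_t k i
    have := L.rs k
    omega)
  set S := ∑ n ∈ range (t k i), h (x n) • f n with hS
  have h2 : ∑ n ∈ range (t k i), (h - g) (x n) • f n = S - g := by
    have h3 : g = ∑ n ∈ range (t k i), g (x n) • f n := by
      have h4 : g ∈ Submodule.span 𝕜 (f '' {n | n < t k i}) := by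
        refine Submodule.span_mono (Set.image_mono ?_) hg
        intro n hn
        have hn' : n < r k := hn
        have := L.s_le_t k i
        have := L.rs k
        change n < t k i
        omega
      exact expand_f hbi h4
    conv_rhs => rw [h3]
    rw [hS, ← Finset.sum_sub_distrib]
    apply Finset.sum_congr rfl
    intro n _
    exact sub_smul (h (x n)) (g (x n)) (f n)
  rw [h2] at h1
  have h3 : ‖h - S‖ ≤ 3 * ‖h - g‖ := by
    have h4 : h - S = (h - g) - (S - g) := by abel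
    rw [h4]
    have := norm_sub_le (h - g) (S - g)
    linarith
  have h5 : φ S = ∑ n ∈ Ico (r k + i + 1) (s k), h (x n) * φ (f n) := by
    have h6 := sum_t L H (sum_r L H k) i hi.le
    have h7 := group_id L H k i hi
    rw [Finset.sum_eq_zero (s := Ico (t k i) (t k (i + 1))), add_zero] at h7
    · rw [Finset.sum_eq_sum_Ico_succ_bot hm2, h7, zero_add] at h6
      rw [← h6, hS, map_sum]
      simp only [map_smul, smul_eq_mul]
    · intro n hn
      rw [hB1 n hn, zero_mul]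
  have h8 : ‖φ S‖ ≤ ∑ n ∈ Ico (r k + i + 1) (s k), ‖h‖ * ‖φ‖ * (1 / 2) ^ n := by
    rw [h5]
    apply norm_sum_le_of_le
    intro n hn
    rw [Finset.mem_Ico] at hn
    obtain ⟨n', hn1, hn2⟩ := hB2 n (by omega) hn.2
    have h9 := small L H hn1 hn2
    rw [norm_mul]
    have h10 : ‖h (x n)‖ ≤ ‖h‖ * ‖x n‖ := h.le_opNorm _
    calc ‖h (x n)‖ * ‖φ (f n)‖ ≤ (‖h‖ * ‖x n‖) * ‖φ (f n)‖ :=
          mul_le_mul_of_nonneg_right h10 (norm_nonneg _)
      _ = ‖h‖ * (‖φ (f n)‖ * ‖x n‖) := by ring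
      _ ≤ ‖h‖ * (‖φ (f n)‖ * (1 + ‖x n‖)) :=
          mul_le_mul_of_nonneg_left (mul_le_mul_of_nonneg_left (by linarith) (norm_nonneg _)) (norm_nonneg _)
      _ ≤ ‖h‖ * (‖φ‖ * (1 / 2) ^ n) := mul_le_mul_of_nonneg_left h9 (norm_nonneg _)
      _ = ‖h‖ * ‖φ‖ * (1 / 2) ^ n := by ring
  rw [← Finset.mul_sum] at h8
  have h9 : ∑ n ∈ Ico (r k + i + 1) (s k), (1 / 2 : ℝ) ^ n ≤ 2 * (1 / 2) ^ (r k) := by
    refine (half_sum _ _).trans ?_
    apply mul_le_mul_of_nonneg_left _ (by norm_num)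
    exact pow_le_pow_of_le_one (by norm_num) (by norm_num) (by omega)
  have h10 : ‖h‖ * ‖φ‖ * ∑ n ∈ Ico (r k + i + 1) (s k), (1 / 2 : ℝ) ^ n ≤
      ‖h‖ * ‖φ‖ * (2 * (1 / 2) ^ (r k)) := mul_le_mul_of_nonneg_left h9 (by positivity)
  have h11 : φ h = φ (h - S) + φ S := by rw [map_sub]; ring
  have h12 : ‖φ (h - S)‖ ≤ ‖φ‖ * ‖h - S‖ := φ.le_opNorm _
  have h13 : ‖φ‖ * ‖h - S‖ ≤ ‖φ‖ * (3 * ‖h - g‖) := mul_le_mul_of_nonneg_left h3 (norm_nonneg φ)
  have h14 : ‖φ (h - S) + φ S‖ ≤ ‖φ (h - S)‖ + ‖φ S‖ := norm_add_le _ _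
  rw [h11]
  nlinarith

theorem key {k : ℕ} {g : StrongDual 𝕜 E} (hg : g ∈ Submodule.span 𝕜 (f '' {n | n < r k})) :
    ‖φ h‖ ≤ 7 * ‖φ‖ * ‖h - g‖ + 2 * (1 / 2) ^ (r k) * (‖h‖ * ‖φ‖) := by
  have hpos : 0 ≤ 2 * (1 / 2 : ℝ) ^ (r k) * (‖h‖ * ‖φ‖) := by positivity
  have hpos2 : 0 ≤ ‖φ‖ * ‖h - g‖ := by positivity
  by_cases hA : ∀ m, r k ≤ m → m < s k → ∃ n ∈ TT r s t m, h (x n) ≠ 0
  · have := key_A L H hbi hA hg
    linarith
  · push Not at hA
    classical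
    let P : ℕ → Prop := fun m => r k ≤ m ∧ m < s k ∧ ∀ n ∈ TT r s t m, h (x n) = 0
    obtain ⟨m₀, hm₀⟩ := hA
    have hP : P m₀ := hm₀
    have hfin := Nat.findGreatest_spec (P := P) hP.2.1.le hP
    have h1 := key_B L H hbi hfin.1 hfin.2.1 hfin.2.2 (by
      intro m' h2 h3
      by_contra hcon
      push Not at hcon
      exact Nat.findGreatest_is_greatest h2 h3.le ⟨hfin.1.trans h2.le, h3, hcon⟩) hg
    linarith

theorem strong (hf : (Submodule.span 𝕜 (Set.range f)).topologicalClosure = ⊤) : φ h = 0 := by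
  rw [← norm_le_zero_iff]
  refine le_of_forall_pos_le_add fun ε hε => ?_
  rw [zero_add]
  have hmem : h ∈ closure ((Submodule.span 𝕜 (Set.range f) : Submodule 𝕜 (StrongDual 𝕜 E)) :
      Set (StrongDual 𝕜 E)) := by
    have : h ∈ (Submodule.span 𝕜 (Set.range f)).topologicalClosure := by rw [hf]; trivial
    exact this
  obtain ⟨g, hg, hd⟩ := Metric.mem_closure_iff.1 hmem (ε / (2 * (7 * ‖φ‖ + 1))) (by positivity)
  rw [dist_eq_norm] at hd
  obtain ⟨q, hq⟩ := mem_span_lt f hg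
  obtain ⟨N, hN⟩ := exists_pow_lt_of_lt_one (show 0 < ε / (2 * (2 * (‖h‖ * ‖φ‖) + 1)) by positivity)
    (show (1 / 2 : ℝ) < 1 by norm_num)
  let k := max q N
  have hk : k ≤ r k := L.r_strictMono.id_le k
  have hg' : g ∈ Submodule.span 𝕜 (f '' {n | n < r k}) := by
    refine Submodule.span_mono (Set.image_mono ?_) hq
    intro n hn
    exact lt_of_lt_of_le hn ((le_max_left _ _).trans hk)
  have h1 := key L H hbi hg'
  have h2 : 7 * ‖φ‖ * ‖h - g‖ ≤ ε / 2 := by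
    have h3 : 7 * ‖φ‖ * ‖h - g‖ ≤ (7 * ‖φ‖ + 1) * (ε / (2 * (7 * ‖φ‖ + 1))) :=
      mul_le_mul (by linarith) hd.le (norm_nonneg _) (by positivity)
    have h4 : (7 * ‖φ‖ + 1) * (ε / (2 * (7 * ‖φ‖ + 1))) = ε / 2 := by
      field_simp
    linarith
  have h5 : 2 * (1 / 2) ^ (r k) * (‖h‖ * ‖φ‖) ≤ ε / 2 := by
    have h6 : (1 / 2 : ℝ) ^ (r k) ≤ (1 / 2) ^ N :=
      pow_le_pow_of_le_one (by norm_num) (by norm_num) ((le_max_right _ _).trans hk)
    have h7 : 2 * (1 / 2) ^ (r k) * (‖h‖ * ‖φ‖) ≤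
        (2 * (‖h‖ * ‖φ‖) + 1) * (ε / (2 * (2 * (‖h‖ * ‖φ‖) + 1))) := by
      have h8 : 2 * (1 / 2) ^ (r k) * (‖h‖ * ‖φ‖) = (2 * (‖h‖ * ‖φ‖)) * (1 / 2) ^ (r k) := by ring
      rw [h8]
      exact mul_le_mul (by linarith) (h6.trans hN.le) (by positivity) (by positivity)
    have h9 : (2 * (‖h‖ * ‖φ‖) + 1) * (ε / (2 * (2 * (‖h‖ * ‖φ‖) + 1))) = ε / 2 := by
      field_simp
    linarith
  linarith

end key

/-- The main theorem: partial spans of the dual part are annihilators. -/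
theorem main {E : Type*} [NormedAddCommGroup E] [NormedSpace 𝕜 E]
    (hE : ¬ FiniteDimensional 𝕜 E) [TopologicalSpace.SeparableSpace (StrongDual 𝕜 E)] :
    ∃ (x : ℕ → E) (f : ℕ → StrongDual 𝕜 E), (∀ i j, f i (x j) = if i = j then 1 else 0) ∧
      (Submodule.span 𝕜 (Set.range x)).topologicalClosure = ⊤ ∧
      (Submodule.span 𝕜 (Set.range f)).topologicalClosure = ⊤ ∧
      ∀ (M : Set ℕ) (h : StrongDual 𝕜 E),
        h ∈ (Submodule.span 𝕜 (f '' M)).topologicalClosure ↔ ∀ j, j ∉ M → h (x j) = 0 := by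
  obtain ⟨x, f, hbi, hx, hf⟩ := exists_mbasis hE
  obtain ⟨r, s, t, L⟩ := exists_layout x f hx hf
  let T := TT r s t
  let a : ℕ → 𝕜 := fun m => ((wt x f (TT r s t) m : ℝ) : 𝕜)
  have T1 : ∀ n m, n ∈ T m → m < n := fun _ _ => L.T1
  have T2 : ∀ n m, n ∈ T m → T n = ∅ := fun _ _ => L.T2
  have T3 : ∀ n m m', n ∈ T m → n ∈ T m' → m = m' := fun _ _ _ => L.T3
  have hbi' : ∀ i j, nf T a f i (nx T a x j) = if i = j then 1 else 0 :=
    new_biorth a x f T1 T2 hbi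
  refine ⟨nx T a x, nf T a f, hbi', ?_, ?_, ?_⟩
  · rw [eq_top_iff, ← hx]
    apply Submodule.topologicalClosure_mono
    rw [Submodule.span_le]
    rintro _ ⟨m, rfl⟩
    exact x_mem_span a x T2 m
  · rw [eq_top_iff, ← hf]
    apply Submodule.topologicalClosure_mono
    rw [Submodule.span_le]
    rintro _ ⟨m, rfl⟩
    exact f_mem_span a f T2 m
  · intro M h
    constructor
    · intro hh j hj
      have hcl : IsClosed {g : StrongDual 𝕜 E | g (nx T a x j) = 0} :=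
        isClosed_eq (continuous_eval_const (F := StrongDual 𝕜 E) (nx T a x j)) continuous_const
      have hsub : ((Submodule.span 𝕜 (nf T a f '' M) : Submodule 𝕜 (StrongDual 𝕜 E)) :
          Set (StrongDual 𝕜 E)) ⊆ {g : StrongDual 𝕜 E | g (nx T a x j) = 0} := by
        intro g hg
        induction hg using Submodule.span_induction with
        | mem z hz =>
          obtain ⟨m, hm, rfl⟩ := hz
          change nf T a f m (nx T a x j) = 0
          rw [hbi', if_neg]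
          rintro rfl
          exact hj hm
        | zero => exact rfl
        | add u v _ _ hu hv =>
          have hu' : u (nx T a x j) = 0 := hu
          have hv' : v (nx T a x j) = 0 := hv
          change u (nx T a x j) + v (nx T a x j) = 0
          rw [hu', hv', add_zero]
        | smul c u _ hu =>
          have hu' : u (nx T a x j) = 0 := hu
          change c • u (nx T a x j) = 0
          rw [hu', smul_zero]
      exact closure_minimal hsub hcl hh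
    · intro hh
      by_contra hcon
      obtain ⟨φ, hφ1, hφ2⟩ := exists_dual_of_notMem _ (Submodule.isClosed_topologicalClosure _) hcon
      apply hφ1
      refine strong L (h := h) (φ := φ) ?_ hbi hf
      intro n
      by_cases hn : n ∈ M
      · have : φ (nf T a f n) = 0 :=
          hφ2 _ (Submodule.le_topologicalClosure _ (Submodule.subset_span ⟨n, hn, rfl⟩))
        change h (nx T a x n) * φ (nf T a f n) = 0
        rw [this, mul_zero]
      · change h (nx T a x n) * φ (nf T a f n) = 0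
        rw [hh n hn, zero_mul]

end Pool.Agent.H787R2.StrongMB
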